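import Mathlib

/-!
# Liouville manifolds, Lefschetz fibrations and Liouville hypersurfaces

Manifolds are presented as quotients `U / G`, where `U` is an open subset of a finite-dimensional
real vector space `E` and `G` is a group of diffeomorphisms which acts freely and properly
discontinuously on `U`. Functions, forms, vector fields and subsets of the manifold are the
`G`-invariant ones on `U`.
-/

open Set Filter Topology
open scoped ContDiff

namespace Pool.Agent.LF

/-- A smooth manifold `U / G`: `U` is open (and connected) in `E`, `G` is a group of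
diffeomorphisms acting freely and properly discontinuously on `U`. -/
structure QMan (E : Type) [NormedAddCommGroup E] [NormedSpace ℝ E] where
  U : Set E
  G : Set (E → E)
  isOpen_U : IsOpen U
  conn_U : IsConnected U
  id_mem : id ∈ G
  comp_mem : ∀ g ∈ G, ∀ h ∈ G, g ∘ h ∈ G
  inv_mem : ∀ g ∈ G, ∃ h ∈ G, (∀ x, h (g x) = x) ∧ ∀ x, g (h x) = x
  smooth : ∀ g ∈ G, ContDiff ℝ ∞ g
  maps : ∀ g ∈ G, ∀ x ∈ U, g x ∈ U
  free : ∀ g ∈ G, ∀ x ∈ U, g x = x → g = id
  disc : ∀ K ⊆ U, IsCompact K → {g | g ∈ G ∧ ∃ x ∈ K, g x ∈ K}.Finite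

variable {E : Type} [NormedAddCommGroup E] [NormedSpace ℝ E]

/-- `f` descends to the quotient manifold. -/
def QMan.Inv (X : QMan E) {Y : Type} (f : E → Y) : Prop :=
  ∀ g ∈ X.G, ∀ x ∈ X.U, f (g x) = f x

/-- The image of `S` in the quotient manifold is relatively compact. -/
def QMan.Bdd (X : QMan E) (S : Set E) : Prop :=
  ∃ K ⊆ X.U, IsCompact K ∧ ∀ x ∈ S, ∃ g ∈ X.G, g x ∈ K

/-- The exterior derivative of the one-form `lam` at `x`, evaluated on `v, w`. -/
noncomputable def dlam (lam : E → E →L[ℝ] ℝ) (x v w : E) : ℝ :=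
  fderiv ℝ lam x v w - fderiv ℝ lam x w v

/-- A Liouville manifold of dimension `2 n`: an exact symplectic manifold with primitive `lam`,
whose Liouville field `Z` is complete (with flow `flow`), and which is cylindrical at infinity:
`rho` is an exhausting function with `d rho (Z) > 0` where `rho ≥ 1`. So outside the compact set
`rho ≤ 1` it is the positive symplectisation of the closed contact manifold `rho = 1`. -/
structure Liouville (E : Type) [NormedAddCommGroup E] [NormedSpace ℝ E] (n : ℕ)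
    extends QMan E where
  dim : Module.finrank ℝ E = 2 * n
  lam : E → E →L[ℝ] ℝ
  Z : E → E
  flow : ℝ → E → E
  rho : E → ℝ
  lam_smooth : ContDiffOn ℝ ∞ lam U
  lam_inv : ∀ g ∈ G, ∀ x ∈ U, ∀ v, lam (g x) (fderiv ℝ g x v) = lam x v
  nondeg : ∀ x ∈ U, ∀ v, (∀ w, dlam lam x v w = 0) → v = 0
  Z_smooth : ContDiffOn ℝ ∞ Z U
  Z_spec : ∀ x ∈ U, ∀ w, dlam lam x (Z x) w = lam x w
  flow_mem : ∀ t, ∀ x ∈ U, flow t x ∈ U
  flow_zero : ∀ x ∈ U, flow 0 x = x
  flow_deriv : ∀ x ∈ U, ∀ t, HasDerivAt (fun s => flow s x) (Z (flow t x)) t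
  rho_smooth : ContDiffOn ℝ ∞ rho U
  rho_inv : ∀ g ∈ G, ∀ x ∈ U, rho (g x) = rho x
  rho_proper : ∀ c : ℝ, toQMan.Bdd {x | x ∈ U ∧ rho x ≤ c}
  rho_conv : ∀ x ∈ U, 1 ≤ rho x → 0 < fderiv ℝ rho x (Z x)

/-- The union of the trajectories of `Z` which go to infinity. It is the symplectisation of the
ideal boundary; subsets of the ideal boundary are the flow-invariant subsets of `X.ends`. -/
def Liouville.ends {n : ℕ} (X : Liouville E n) : Set E :=
  {x | x ∈ X.U ∧ ∃ t, 1 ≤ X.rho (X.flow t x)}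

/-- Contact forms on the ideal boundary: the hypersurface `s = 1` is a copy of the ideal
boundary, and `lam` restricts to a contact form on it; every contact form arises so. -/
structure IsContactScale {n : ℕ} (X : Liouville E n) (s : E → ℝ) : Prop where
  smooth : ContDiffOn ℝ ∞ s X.ends
  pos : ∀ x ∈ X.ends, 0 < s x
  inv : ∀ g ∈ X.G, ∀ x ∈ X.ends, s (g x) = s x
  scale : ∀ t, ∀ x ∈ X.ends, s (X.flow t x) = Real.exp t * s x

/-- `pi : X → ℂ` is a Lefschetz fibration on the Liouville manifold `X` of dimension `2 n`. -/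
structure IsLefschetz {n : ℕ} (X : Liouville E n) (pi : E → ℂ) : Prop where
  smooth : ContDiffOn ℝ ∞ pi X.U
  inv : ∀ g ∈ X.G, ∀ x ∈ X.U, pi (g x) = pi x
  /-- finitely many critical points -/
  crit_finite : ∃ P : Finset E, ∀ x ∈ X.U, ¬ Function.Surjective (fderiv ℝ pi x) →
    ∃ g ∈ X.G, g x ∈ P
  /-- complex Morse charts at the critical points, tamed by the symplectic form -/
  crit_morse : ∀ x ∈ X.U, ¬ Function.Surjective (fderiv ℝ pi x) →
    ∃ psi : (Fin n → ℂ) → E, psi 0 = x ∧ ContDiffAt ℝ ∞ psi 0 ∧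
      Function.Bijective (fderiv ℝ psi 0) ∧
      (∀ v, v ≠ 0 → 0 < dlam X.lam x (fderiv ℝ psi 0 v) (fderiv ℝ psi 0 (Complex.I • v))) ∧
      ∀ᶠ z in 𝓝 (0 : Fin n → ℂ), pi (psi z) = pi x + ∑ i, z i ^ 2
  /-- the fibres are symplectic -/
  fibre_symp : ∀ x ∈ X.U, Function.Surjective (fderiv ℝ pi x) → ∀ v, fderiv ℝ pi x v = 0 →
    (∀ w, fderiv ℝ pi x w = 0 → dlam X.lam x v w = 0) → v = 0
  /-- product structure at the horizontal infinity: `eta` is the coordinate on the cylindrical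
  ends of the fibres, `Phi x w` is the parallel transport of `x` to the fibre over `w`, and
  `lam` is the sum of a form on the fibre and of the standard form on `ℂ` -/
  horizontal : ∃ (eta : E → ℝ) (Phi : E → ℂ → E),
    ContinuousOn eta X.U ∧ (∀ g ∈ X.G, ∀ x ∈ X.U, eta (g x) = eta x) ∧
    (∀ c : ℝ, X.Bdd {x | x ∈ X.U ∧ eta x ≤ c ∧ ‖pi x‖ ≤ c}) ∧
    ContDiffOn ℝ ∞ eta {x | x ∈ X.U ∧ 1 < eta x} ∧
    ContDiffOn ℝ ∞ (fun y : E × ℂ => Phi y.1 y.2) ({x | x ∈ X.U ∧ 1 < eta x} ×ˢ univ) ∧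
    ∀ x ∈ X.U, 1 < eta x → Function.Surjective (fderiv ℝ pi x) ∧
      fderiv ℝ eta x (X.Z x) = eta x ∧ Phi x (pi x) = x ∧
      (∀ w, Phi x w ∈ X.U ∧ eta (Phi x w) = eta x ∧ pi (Phi x w) = w ∧
        (∀ w', Phi (Phi x w) w' = Phi x w') ∧ ∀ g ∈ X.G, Phi (g x) w = g (Phi x w)) ∧
      ∀ v, X.lam x v = X.lam (Phi x 0) (fderiv ℝ (fun y => Phi y 0) x v) +
        (1 / 2) * ((starRingEnd ℂ) (pi x) * fderiv ℝ pi x v).im
  /-- compatibility at infinity: outside a compact set `d pi (Z)` is a positive multiple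
  of `pi`, so that `arg pi` is constant along the trajectories of `Z` -/
  vertical : ∃ (K : Set E) (c : E → ℝ) (c0 : ℝ), X.Bdd K ∧ 0 < c0 ∧
    ∀ x ∈ X.U, x ∉ K → c0 ≤ c x ∧ fderiv ℝ pi x (X.Z x) = (c x : ℂ) * pi x

/-- `C` is the cone over a Liouville hypersurface `F` of the ideal boundary, with boundary
defined by `h = 0`: `F` is compact, of codimension one with smooth boundary, and for some contact
form on the ideal boundary (given by `s`) the restriction to `F` is the primitive of a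
symplectic form whose Liouville field points outwards along the boundary. -/
structure IsLiouvilleHypersurface {n : ℕ} (X : Liouville E n) (C : Set E) (h : E → ℝ) :
    Prop where
  sub : C ⊆ X.ends
  nonempty : C.Nonempty
  inv : ∀ g ∈ X.G, ∀ x ∈ C, g x ∈ C
  flow_inv : ∀ t, ∀ x ∈ C, X.flow t x ∈ C
  closed : ∀ x ∈ X.ends, x ∈ closure C → x ∈ C
  h_smooth : ContDiffOn ℝ ∞ h X.ends
  h_inv : ∀ g ∈ X.G, ∀ x ∈ X.ends, h (g x) = h x
  /-- `h` is homogeneous, so that `h = 0` defines the boundary of the cone `C` at every scale -/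
  h_flow : ∃ k : ℝ, ∀ t, ∀ x ∈ X.ends, h (X.flow t x) = Real.exp (k * t) * h x
  contact : ∃ s : E → ℝ, IsContactScale X s ∧ X.Bdd {x | x ∈ C ∧ s x = 1} ∧
    ∀ x ∈ C, s x = 1 → ∃ (b : E → ℝ) (O : Set E), IsOpen O ∧ x ∈ O ∧ O ⊆ X.ends ∧
      ContDiffOn ℝ ∞ b O ∧ (∀ y ∈ O, y ∈ C ↔ b y = 0 ∧ h y ≤ 0) ∧
      (∃ v, fderiv ℝ b x v ≠ 0) ∧ (h x = 0 → ∃ v, fderiv ℝ b x v = 0 ∧ fderiv ℝ h x v ≠ 0) ∧
      (∀ v, fderiv ℝ b x v = 0 → fderiv ℝ s x v = 0 →
        (∀ w, fderiv ℝ b x w = 0 → fderiv ℝ s x w = 0 → dlam X.lam x v w = 0) → v = 0) ∧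
      (h x = 0 → ∀ v, fderiv ℝ b x v = 0 → fderiv ℝ s x v = 0 →
        (∀ w, fderiv ℝ b x w = 0 → fderiv ℝ s x w = 0 → dlam X.lam x v w = X.lam x w) →
        0 < fderiv ℝ h x v)

/-- The Liouville hypersurface with cone `C` and boundary defined by `h` is a Liouville
subdomain of the fibre at infinity of `pi` (in the direction of the positive real axis):
near infinity `C` lies over the positive real axis, and along the boundary the
Liouville field `v` of the fibre points outwards. -/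
def IsFibreSubdomain {n : ℕ} (X : Liouville E n) (pi : E → ℂ) (C : Set E) (h : E → ℝ) : Prop :=
  ∃ K : Set E, X.Bdd K ∧ ∀ x ∈ C, x ∉ K → 0 < (pi x).re ∧ (pi x).im = 0 ∧
    (h x = 0 → ∀ v, fderiv ℝ pi x v = 0 →
      (∀ w, fderiv ℝ pi x w = 0 → dlam X.lam x v w = X.lam x w) → 0 < fderiv ℝ h x v)

end Pool.Agent.LF
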