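import Pool.Agent.LF.Defs

/-!
# The example: explicit data
-/

open Set Filter Topology
open scoped ContDiff

namespace Pool.Agent.LF

abbrev E6 : Type := Fin 6 → ℝ

/-- the open set `q > 0`, coordinates `(x, y, p, q, u, v)` -/
def U6 : Set E6 := {x | 0 < x 3}

/-- the group element with parameters `k, a, b` -/
noncomputable def g6 (k a b : ℤ) (x : E6) : E6 :=
  ![Real.goldenRatio ^ (2 * k) * x 0 + (a + b * Real.goldenRatio),
    Real.goldenConj ^ (2 * k) * x 1 + (a + b * Real.goldenConj),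
    Real.goldenConj ^ (2 * k) * x 2, Real.goldenRatio ^ (2 * k) * x 3, x 4, x 5]

/-- the group -/
def G6 : Set (E6 → E6) := {g | ∃ k a b : ℤ, g = g6 k a b}

/-- `p dx + q dy + (u dv - v du) / 2` -/
noncomputable def lam6 (x : E6) : E6 →L[ℝ] ℝ :=
  x 2 • ContinuousLinearMap.proj (R := ℝ) (φ := fun _ : Fin 6 => ℝ) 0 +
    x 3 • ContinuousLinearMap.proj (R := ℝ) (φ := fun _ : Fin 6 => ℝ) 1 +
    (x 4 / 2) • ContinuousLinearMap.proj (R := ℝ) (φ := fun _ : Fin 6 => ℝ) 5 -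
    (x 5 / 2) • ContinuousLinearMap.proj (R := ℝ) (φ := fun _ : Fin 6 => ℝ) 4

/-- the symplectic form `dp dx + dq dy + du dv` -/
def om (v w : E6) : ℝ :=
  v 2 * w 0 - v 0 * w 2 + (v 3 * w 1 - v 1 * w 3) + (v 4 * w 5 - v 5 * w 4)

/-- the Liouville field -/
noncomputable def Z6 (x : E6) : E6 := ![0, 0, x 2, x 3, x 4 / 2, x 5 / 2]

/-- its flow -/
noncomputable def fl (t : ℝ) (x : E6) : E6 :=
  ![x 0, x 1, Real.exp t * x 2, Real.exp t * x 3, Real.exp (t / 2) * x 4, Real.exp (t / 2) * x 5]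

/-- `m = p q` -/
def m6 (x : E6) : ℝ := x 2 * x 3

def rho6 (x : E6) : ℝ := m6 x ^ 2 + (x 4 ^ 2 + x 5 ^ 2) ^ 4

/-- boundary defining function of the Liouville hypersurface -/
def h6 (x : E6) : ℝ := m6 x ^ 2 - x 4 ^ 8

/-- the cone over the Liouville hypersurface: two parallel copies of the page -/
def C6 : Set E6 := {x | x ∈ U6 ∧ x 4 ≠ 0 ∧ x 5 = 0 ∧ h6 x ≤ 0}

/-- the function `kappa` -/
noncomputable def kap (x : E6) : ℂ := ⟨m6 x - x 4 ^ 4, x 5⟩

/-- the projection to `ℂ` -/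
noncomputable def pi6 (x : E6) : ℂ := ⟨x 4, x 5⟩

/-- contact scale -/
noncomputable def s6 (x : E6) : ℝ := Real.sqrt (Real.sqrt (rho6 x))

end Pool.Agent.LF
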