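import Pool.Agent.LF.Quo

/-! # Hamiltonian fields, the function `BB` (Poisson bracket) and the vector fields `NN`, `RR`

Task HamA: the lemmas of this file. -/

open Set Filter Topology
open scoped ContDiff

namespace Pool.Agent.LF

/-- the vector `X` with `om X w = l w` for all `w` -/
noncomputable def ham (l : E6 →L[ℝ] ℝ) : E6 :=
  ![-l (Pi.single 2 1), -l (Pi.single 3 1), l (Pi.single 0 1), l (Pi.single 1 1),
    l (Pi.single 5 1), -l (Pi.single 4 1)]

/-- derivative of the real part of `p` -/
noncomputable def d1 (p : E6 → ℂ) (x : E6) : E6 →L[ℝ] ℝ := Complex.reCLM.comp (fderiv ℝ p x)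

/-- derivative of the imaginary part of `p` -/
noncomputable def d2 (p : E6 → ℂ) (x : E6) : E6 →L[ℝ] ℝ := Complex.imCLM.comp (fderiv ℝ p x)

/-- the Poisson bracket of the real and imaginary parts of `p` -/
noncomputable def BB (p : E6 → ℂ) (x : E6) : ℝ := d2 p x (ham (d1 p x))

/-- `BB` times the Liouville field of the fibre -/
noncomputable def NN (p : E6 → ℂ) (x : E6) : E6 :=
  BB p x • Z6 x - d2 p x (Z6 x) • ham (d1 p x) + d1 p x (Z6 x) • ham (d2 p x)

/-- right inverse of the derivative of `p` at a regular point -/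
noncomputable def RR (p : E6 → ℂ) (x : E6) (c : ℂ) : E6 :=
  (c.im / BB p x) • ham (d1 p x) - (c.re / BB p x) • ham (d2 p x)

private theorem lin_expand (l : E6 →L[ℝ] ℝ) (w : E6) :
    l w = w 0 * l (Pi.single 0 1) + w 1 * l (Pi.single 1 1) + w 2 * l (Pi.single 2 1) +
      w 3 * l (Pi.single 3 1) + w 4 * l (Pi.single 4 1) + w 5 * l (Pi.single 5 1) := by
  have hw : w = ∑ i : Fin 6, w i • (Pi.single i (1 : ℝ) : E6) := by
    ext j
    simp [Finset.sum_apply, Pi.single_apply]
  conv_lhs => rw [hw]
  rw [map_sum]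
  simp only [map_smul, smul_eq_mul, Fin.sum_univ_six]

theorem om_ham (l : E6 →L[ℝ] ℝ) (w : E6) : om (ham l) w = l w := by
  rw [lin_expand l w]
  simp only [om, ham, Matrix.cons_val]
  ring

theorem om_self (v : E6) : om v v = 0 := by
  unfold om; ring

theorem om_swap (v w : E6) : om v w = - om w v := by
  unfold om; ring

private theorem d_ham_self (l : E6 →L[ℝ] ℝ) : l (ham l) = 0 := by
  rw [← om_ham l (ham l), om_self]

private theorem d_ham_swap (l m : E6 →L[ℝ] ℝ) : l (ham m) = - m (ham l) := by
  rw [← om_ham l (ham m), ← om_ham m (ham l), om_swap]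

private theorem om_add (a b w : E6) : om (a + b) w = om a w + om b w := by
  simp only [om, Pi.add_apply]; ring

private theorem om_sub (a b w : E6) : om (a - b) w = om a w - om b w := by
  simp only [om, Pi.sub_apply]; ring

private theorem om_smul (c : ℝ) (a w : E6) : om (c • a) w = c * om a w := by
  simp only [om, Pi.smul_apply, smul_eq_mul]; ring

private theorem ext_d (p : E6 → ℂ) (x v : E6) (c : ℂ) (h1 : d1 p x v = c.re)
    (h2 : d2 p x v = c.im) : fderiv ℝ p x v = c := by
  apply Complex.ext
  · simpa [d1] using h1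
  · simpa [d2] using h2

theorem p_NN (p : E6 → ℂ) (x : E6) : fderiv ℝ p x (NN p x) = 0 := by
  refine ext_d p x _ 0 ?_ ?_
  · simp only [NN, map_add, map_sub, map_smul, smul_eq_mul, d_ham_self]
    rw [d_ham_swap (d1 p x) (d2 p x)]
    simp only [BB, Complex.zero_re]
    ring
  · simp only [NN, map_add, map_sub, map_smul, smul_eq_mul, d_ham_self]
    simp only [BB, Complex.zero_im]
    ring

theorem om_NN (p : E6 → ℂ) (x w : E6) (hw : fderiv ℝ p x w = 0) :
    om (NN p x) w = BB p x * lam6 x w := by
  have h1 : d1 p x w = 0 := by simp [d1, hw]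
  have h2 : d2 p x w = 0 := by simp [d2, hw]
  have hZ : om (Z6 x) w = lam6 x w := by
    simp [om, Z6, lam6]
    ring
  simp only [NN, om_add, om_sub, om_smul, om_ham, h1, h2, hZ]
  ring

theorem p_RR (p : E6 → ℂ) (x : E6) (c : ℂ) (h : BB p x ≠ 0) : fderiv ℝ p x (RR p x c) = c := by
  refine ext_d p x _ c ?_ ?_
  · simp only [RR, map_sub, map_smul, smul_eq_mul, d_ham_self]
    rw [d_ham_swap (d1 p x) (d2 p x)]
    change _ - c.re / BB p x * (-(BB p x)) = _
    field_simp
    ring
  · simp only [RR, map_sub, map_smul, smul_eq_mul, d_ham_self]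
    change c.im / BB p x * (BB p x) - _ = _
    field_simp
    ring

end Pool.Agent.LF
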