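import Pool.Agent.LF.Mg_MP_639418_gt.G005
import Pool.Agent.LF.Mg_MP_639418_gt.G001

/-! # Task IntD: integration on the quotient -/

open Set Filter Topology MeasureTheory
open scoped ContDiff

namespace Pool.Agent.LF

/-- a nonnegative integrand on the quotient vanishes -/
theorem quot_zero {p : E6 → ℂ} (hp : ContDiffOn ℝ ∞ p U6)
    (hpG : ∀ g ∈ G6, ∀ x ∈ U6, p (g x) = p x) {th : E6 → ℝ}
    (hs : ContDiffOn ℝ ∞ th U6) (hG : ∀ g ∈ G6, ∀ x ∈ U6, th (g x) = th x)
    (hb : Q6.Bdd {x | x ∈ U6 ∧ th x ≠ 0})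
    (hpos : ∀ x ∈ U6, 0 ≤ 2 * BB p x * th x + fderiv ℝ th x (NN p x)) :
    ∀ x ∈ U6, 2 * BB p x * th x + fderiv ℝ th x (NN p x) = 0 := by
  have hUo : IsOpen U6 := isOpen_U6
  obtain ⟨b, hbs, hb0, hbf, hb1, hbK⟩ := exists_unity
  obtain ⟨K0, hK0U, hK0c, hK0⟩ := hbK _ hb
  have hK0cl : IsClosed K0 := hK0c.isClosed
  -- finite sets of group elements
  have hfin : ∀ K ⊆ U6, IsCompact K →
      ∃ s : Finset G6, ∀ g : G6, g ∉ s → ∀ x ∈ K, b (g.1 x) = 0 := by
    intro K hK hKc
    have h1 := hbf K hK hKc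
    have h2 : (Subtype.val ⁻¹' {g | g ∈ G6 ∧ ∃ x ∈ K, b (g x) ≠ 0} : Set G6).Finite :=
      h1.preimage Subtype.val_injective.injOn
    refine ⟨h2.toFinset, fun g hg x hx => ?_⟩
    by_contra h
    apply hg
    rw [Set.Finite.mem_toFinset]
    exact ⟨g.2, x, hx, h⟩
  -- the inversion
  have hinv : ∀ g : G6, ∃ h : G6, (∀ x, h.1 (g.1 x) = x) ∧ ∀ x, g.1 (h.1 x) = x := by
    intro g
    obtain ⟨h, hh, h1, h2⟩ := inv_mem6 g.1 g.2
    exact ⟨⟨h, hh⟩, h1, h2⟩
  choose σ hσ1 hσ2 using hinv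
  have hσσ : ∀ g, σ (σ g) = g := by
    intro g
    apply Subtype.ext
    funext x
    have h1 := hσ1 (σ g) (g.1 x)
    rwa [hσ1 g x] at h1
  let σe : G6 ≃ G6 := ⟨σ, σ, hσσ, hσσ⟩
  have hgU : ∀ g : G6, ∀ x, g.1 x ∈ U6 ↔ x ∈ U6 := by
    intro g x
    refine ⟨fun h => ?_, fun h => maps6 g.1 g.2 x h⟩
    have := maps6 (σ g).1 (σ g).2 _ h
    rwa [hσ1] at this
  have hgc : ∀ g : G6, Continuous g.1 := fun g => (smooth6 g.1 g.2).continuous
  have hgi : ∀ g : G6, Function.Injective g.1 := fun g x y h => by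
    have := congrArg (σ g).1 h
    rwa [hσ1, hσ1] at this
  have hgm : ∀ g : G6, MeasurePreserving g.1 (volume : Measure E6) volume :=
    fun g => measurePreserving6 g.2
  have hge : ∀ g : G6, MeasurableEmbedding g.1 := fun g =>
    (hgc g).measurableEmbedding (hgi g)
  -- the function `th0`
  obtain ⟨th0, hth0⟩ : ∃ th0 : E6 → ℝ, th0 = K0.indicator (fun x => b x * th x) := ⟨_, rfl⟩
  have th0_K : ∀ x, x ∉ K0 → th0 x = 0 := by
    intro x hx
    rw [hth0, Set.indicator_of_notMem hx]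
  have th0_U : ∀ x ∈ U6, th0 x = b x * th x := by
    intro x hx
    by_cases h : x ∈ K0
    · rw [hth0, Set.indicator_of_mem h]
    · rw [th0_K x h]
      by_contra h1
      have h2 : b x ≠ 0 := fun h3 => h1 (by rw [h3, zero_mul])
      have h3 : th x ≠ 0 := fun h3 => h1 (by rw [h3, mul_zero])
      exact h (hK0 x ⟨hx, h3⟩ hx h2)
  have th0_s : ContDiff ℝ ∞ th0 := by
    rw [contDiff_iff_contDiffAt]
    intro x
    by_cases h : x ∈ K0
    · have hxU := hK0U h
      have h1 : ContDiffAt ℝ ∞ (fun y => b y * th y) x :=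
        ((hbs x hxU).contDiffAt (hUo.mem_nhds hxU)).mul ((hs x hxU).contDiffAt (hUo.mem_nhds hxU))
      refine h1.congr_of_eventuallyEq ?_
      filter_upwards [hUo.mem_nhds hxU] with y hy using th0_U y hy
    · have h1 : ContDiffAt ℝ ∞ (fun _ : E6 => (0 : ℝ)) x := contDiffAt_const
      refine h1.congr_of_eventuallyEq ?_
      filter_upwards [hK0cl.isOpen_compl.mem_nhds h] with y hy using th0_K y hy
  have th0_c : HasCompactSupport th0 := by
    refine HasCompactSupport.intro hK0c (fun x hx => th0_K x hx)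
  have th0_t : tsupport th0 ⊆ K0 := by
    refine closure_minimal (fun x hx => ?_) hK0cl
    by_contra h
    exact hx (th0_K x h)
  -- the integrand
  obtain ⟨f, hf⟩ : ∃ f : E6 → ℝ,
      f = fun x => 2 * BB p x * th0 x + fderiv ℝ th0 x (NN p x) := ⟨_, rfl⟩
  have hf0 : ∫ x, f x = 0 := by
    rw [hf]
    exact integral_zero hp th0_s th0_c (th0_t.trans hK0U)
  have f_K : ∀ x, x ∉ K0 → f x = 0 := by
    intro x hx
    have h1 : fderiv ℝ th0 x = 0 := by
      by_contra h
      exact hx (th0_t (support_fderiv_subset ℝ h))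
    rw [hf]
    simp only [th0_K x hx, h1]
    simp
  have f_c : ContinuousOn f U6 := by
    rw [hf]
    refine ((continuousOn_const.mul (BB_cont hp).continuousOn).mul
      th0_s.continuous.continuousOn).add ?_
    exact (th0_s.continuous_fderiv (by simp)).continuousOn.clm_apply (NN_cont hp).continuousOn
  -- the action on the integrand
  have f_g : ∀ g : G6, ∀ x ∈ U6, f (g.1 x) =
      2 * BB p x * th0 (g.1 x) + fderiv ℝ (fun y => th0 (g.1 y)) x (NN p x) := by
    intro g x hx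
    have h1 : fderiv ℝ (fun y => th0 (g.1 y)) x =
        (fderiv ℝ th0 (g.1 x)).comp (fderiv ℝ g.1 x) :=
      fderiv_comp x (th0_s.differentiable (by simp) _)
        ((smooth6 g.1 g.2).differentiable (by simp) _)
    rw [hf]
    simp only
    rw [BB_G hp hpG g.2 hx, NN_G hp hpG g.2 hx, h1]
    rfl
  have f_sum : ∀ x ∈ U6, ∑ᶠ g : G6, f (g.1 x) = 2 * BB p x * th x + fderiv ℝ th x (NN p x) := by
    intro x hx
    obtain ⟨K, hKc, hxK, hKU⟩ := exists_compact_subset hUo hx
    obtain ⟨s, hs'⟩ := hfin K hKU hKc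
    have hKn : K ∈ 𝓝 x := mem_interior_iff_mem_nhds.1 hxK
    have h1 : ∀ g : G6, g ∉ s → f (g.1 x) = 0 := by
      intro g hg
      have h2 : (fun y => th0 (g.1 y)) =ᶠ[𝓝 x] fun _ => 0 := by
        filter_upwards [hKn] with y hy
        rw [th0_U _ ((hgU g y).2 (hKU hy)), hs' g hg y hy, zero_mul]
      have h3 : th0 (g.1 x) = 0 := h2.self_of_nhds
      rw [f_g g x hx, h2.fderiv_eq, h3]
      simp
    have h2 : Function.support (fun g : G6 => f (g.1 x)) ⊆ (s : Set G6) := by
      intro g hg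
      by_contra h
      exact hg (h1 g h)
    rw [finsum_eq_sum_of_support_subset _ h2]
    have h3 : ∀ y ∈ K, ∑ g ∈ s, th0 (g.1 y) = th y := by
      intro y hy
      have h4 : ∑ g ∈ s, b (g.1 y) = 1 := by
        rw [← hb1 y (hKU hy)]
        refine (finsum_eq_sum_of_support_subset _ ?_).symm
        intro g hg
        by_contra h
        exact hg (hs' g h y hy)
      calc ∑ g ∈ s, th0 (g.1 y) = ∑ g ∈ s, b (g.1 y) * th y := by
            refine Finset.sum_congr rfl fun g _ => ?_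
            rw [th0_U _ ((hgU g y).2 (hKU hy)), hG g.1 g.2 y (hKU hy)]
        _ = th y := by rw [← Finset.sum_mul, h4, one_mul]
    have h4 : (fun y => ∑ g ∈ s, th0 (g.1 y)) =ᶠ[𝓝 x] th := by
      filter_upwards [hKn] with y hy using h3 y hy
    have h5 : fderiv ℝ th x = ∑ g ∈ s, fderiv ℝ (fun y => th0 (g.1 y)) x := by
      rw [← h4.fderiv_eq, fderiv_fun_sum]
      intro g _
      exact ((th0_s.comp (smooth6 g.1 g.2)).differentiable (by simp)) x
    calc ∑ g ∈ s, f (g.1 x) = ∑ g ∈ s, (2 * BB p x * th0 (g.1 x) +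
          fderiv ℝ (fun y => th0 (g.1 y)) x (NN p x)) :=
          Finset.sum_congr rfl fun g _ => f_g g x hx
      _ = 2 * BB p x * th x + fderiv ℝ th x (NN p x) := by
          rw [Finset.sum_add_distrib, ← Finset.mul_sum, h3 x (mem_of_mem_nhds hKn), h5]
          simp
  -- the function `b F`
  obtain ⟨s0, hs0⟩ := hfin K0 hK0U hK0c
  have H_c : ∀ g : G6, Continuous (fun y => f ((σ g).1 y) * b y) := by
    intro g
    rw [continuous_iff_continuousAt]
    intro y
    by_cases h : (σ g).1 y ∈ K0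
    · have hyU : y ∈ U6 := (hgU (σ g) y).1 (hK0U h)
      refine ContinuousAt.mul ?_ (hbs.continuousOn.continuousAt (hUo.mem_nhds hyU))
      exact ContinuousAt.comp (f := (σ g).1)
        (f_c.continuousAt (hUo.mem_nhds ((hgU (σ g) y).2 hyU))) (hgc (σ g)).continuousAt
    · have h1 : (fun _ : E6 => (0 : ℝ)) =ᶠ[𝓝 y] (fun y => f ((σ g).1 y) * b y) := by
        have h2 : (σ g).1 ⁻¹' K0ᶜ ∈ 𝓝 y :=
          (hK0cl.isOpen_compl.preimage (hgc (σ g))).mem_nhds h
        filter_upwards [h2] with z hz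
        rw [f_K _ hz, zero_mul]
      exact continuousAt_const.congr h1
  have H_s : ∀ g : G6, HasCompactSupport (fun y => f ((σ g).1 y) * b y) := by
    intro g
    refine HasCompactSupport.intro (hK0c.image (hgc g)) (fun y hy => ?_)
    rw [f_K, zero_mul]
    intro h
    exact hy ⟨_, h, hσ2 g y⟩
  have H_i : ∀ g : G6, Integrable (fun y => f ((σ g).1 y) * b y) := fun g =>
    (H_c g).integrable_of_hasCompactSupport (H_s g)
  have H_int : ∀ g : G6, ∫ y, f ((σ g).1 y) * b y = ∫ x, f x * b (g.1 x) := by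
    intro g
    rw [← (hgm g).integral_comp (hge g)]
    simp only [hσ1]
  have H_i' : ∀ g : G6, Integrable (fun x => f x * b (g.1 x)) := by
    intro g
    have := (hgm g).integrable_comp_of_integrable (H_i g)
    simpa only [Function.comp_def, hσ1] using this
  have f_dec : ∀ x, f x = ∑ g ∈ s0, f x * b (g.1 x) := by
    intro x
    by_cases h : x ∈ K0
    · have h4 : ∑ g ∈ s0, b (g.1 x) = 1 := by
        rw [← hb1 x (hK0U h)]
        refine (finsum_eq_sum_of_support_subset _ ?_).symm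
        intro g hg
        by_contra h'
        exact hg (hs0 g h' x h)
      rw [← Finset.mul_sum, h4, mul_one]
    · simp [f_K x h]
  obtain ⟨Φ, hΦ⟩ : ∃ Φ : E6 → ℝ, Φ = fun y => ∑ g ∈ s0, f ((σ g).1 y) * b y := ⟨_, rfl⟩
  have Φ_c : Continuous Φ := by
    rw [hΦ]
    exact continuous_finsetSum _ fun g _ => H_c g
  have Φ_i : Integrable Φ := by
    rw [hΦ]
    exact integrable_finsetSum _ fun g _ => H_i g
  have Φ_0 : ∫ y, Φ y = 0 := by
    rw [hΦ, integral_finsetSum _ fun g _ => H_i g]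
    rw [Finset.sum_congr rfl fun g _ => H_int g, ← integral_finsetSum _ fun g _ => H_i' g]
    rw [← hf0]
    exact integral_congr_ae (Eventually.of_forall fun x => (f_dec x).symm)
  have Φ_out : ∀ y, y ∉ U6 → Φ y = 0 := by
    intro y hy
    rw [hΦ]
    refine Finset.sum_eq_zero fun g _ => ?_
    rw [f_K, zero_mul]
    intro h
    exact hy ((hgU (σ g) y).1 (hK0U h))
  have Φ_in : ∀ y ∈ U6, Φ y = b y * (2 * BB p y * th y + fderiv ℝ th y (NN p y)) := by
    intro y hy
    rw [hΦ]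
    simp only
    by_cases hby : b y = 0
    · rw [hby]; simp
    rw [← Finset.sum_mul, mul_comm, ← f_sum y hy, ← finsum_comp_equiv σe]
    congr 1
    refine (finsum_eq_sum_of_support_subset _ ?_).symm
    intro g hg
    by_contra h
    apply hg
    change f ((σ g).1 y) = 0
    apply f_K
    intro h1
    have := hs0 g h _ h1
    rw [hσ2] at this
    exact hby this
  have Φ_nn : ∀ y, 0 ≤ Φ y := by
    intro y
    by_cases hy : y ∈ U6
    · rw [Φ_in y hy]
      exact mul_nonneg (hb0 y) (hpos y hy)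
    · rw [Φ_out y hy]
  have Φ_z : ∀ y, Φ y = 0 := by
    have h1 : Φ =ᵐ[volume] 0 := (integral_eq_zero_iff_of_nonneg Φ_nn Φ_i).1 Φ_0
    have h2 : Φ = 0 := (Φ_c.ae_eq_iff_eq volume continuous_zero).1 h1
    intro y
    rw [h2]
    rfl
  intro x hx
  obtain ⟨g, hg⟩ : ∃ g : G6, b (g.1 x) ≠ 0 := by
    by_contra h
    push Not at h
    have := hb1 x hx
    rw [finsum_eq_zero_of_forall_eq_zero h] at this
    exact zero_ne_one this
  have h1 := Φ_z (g.1 x)
  have hgx : g.1 x ∈ U6 := (hgU g x).2 hx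
  rw [Φ_in _ hgx] at h1
  have h2 := (mul_eq_zero.1 h1).resolve_left hg
  have h3 : fderiv ℝ th (g.1 x) (fderiv ℝ g.1 x (NN p x)) = fderiv ℝ th x (NN p x) := by
    have h4 : (fun y => th (g.1 y)) =ᶠ[𝓝 x] th := by
      filter_upwards [hUo.mem_nhds hx] with y hy using hG g.1 g.2 y hy
    have h5 : fderiv ℝ (fun y => th (g.1 y)) x =
        (fderiv ℝ th (g.1 x)).comp (fderiv ℝ g.1 x) :=
      fderiv_comp x (((hs _ hgx).contDiffAt (hUo.mem_nhds hgx)).differentiableAt (by simp))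
        ((smooth6 g.1 g.2).differentiable (by simp) _)
    rw [← h4.fderiv_eq, h5]
    rfl
  rw [BB_G hp hpG g.2 hx, NN_G hp hpG g.2 hx, hG g.1 g.2 x hx, h3] at h2
  exact h2

end Pool.Agent.LF
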