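import Pool.Agent.LF.Local

/-! # Helper for LocT, LocE, LocU, LocL: gluing, canonical index of a Morse ball -/

open Set Filter Topology

namespace Pool.Agent.LF

section Glue

variable {E F : Type} [TopologicalSpace E] [TopologicalSpace F]

open Classical in
/-- closed gluing along a real function -/
theorem glue_le {M : Set E} {r : E → ℝ} (hr : ContinuousOn r M) {a b : ℝ} (hab : a ≤ b)
    {f g : E → F} (hf : ContinuousOn f {x | x ∈ M ∧ r x ≤ b})
    (hg : ContinuousOn g {x | x ∈ M ∧ a ≤ r x})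
    (heq : ∀ x ∈ M, a ≤ r x → r x ≤ b → f x = g x) :
    ∃ h : E → F, ContinuousOn h M ∧ (∀ x ∈ M, r x ≤ b → h x = f x) ∧
      ∀ x ∈ M, a ≤ r x → h x = g x := by
  refine ⟨fun x => if r x ≤ b then f x else g x, ?_, fun x _ h => if_pos h, ?_⟩
  · rw [continuousOn_iff_continuous_domRestrict]
    have hr' : Continuous (M.domRestrict r) := continuousOn_iff_continuous_domRestrict.1 hr
    have key : Continuous fun x : M => if M.domRestrict r x ≤ b then f x.1 else g x.1 := by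
      apply continuous_if_le hr' continuous_const
      · exact hf.comp continuous_subtype_val.continuousOn (fun x hx => ⟨x.2, hx⟩)
      · exact hg.comp continuous_subtype_val.continuousOn (fun x hx => ⟨x.2, hab.trans hx⟩)
      · intro x hx
        exact heq x.1 x.2 (hab.trans hx.ge) hx.le
    exact key
  · intro x hx h
    by_cases hb : r x ≤ b
    · simp only [if_pos hb]; exact heq x hx h hb
    · simp only [if_neg hb]

end Glue

variable {E : Type} [MetricSpace E]

/-- `x` lies in the Morse ball `i` -/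
def LocalData.InB {U : Set E} {p : E → ℂ} {z₁ : ℂ} (L : LocalData U p z₁) (i : L.I) (x : E) :
    Prop := ∃ z, N2 z ≤ 5 * L.d ∧ L.psi i z = x

variable {U : Set E} {p : E → ℂ} {z₁ : ℂ} (L : LocalData U p z₁)

theorem LocalData.d_pos : 0 < L.d := L.e_pos.trans L.e_lt

/-- inverse of `psi i` on its image -/
noncomputable def LocalData.inv (i : L.I) : E → (Fin 3 → ℂ) :=
  Function.invFunOn (L.psi i) {z | N2 z ≤ 5 * L.d}

theorem LocalData.inv_psi (i : L.I) {z : Fin 3 → ℂ} (hz : N2 z ≤ 5 * L.d) :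
    L.inv i (L.psi i z) = z :=
  (L.psi_inj i).leftInvOn_invFunOn hz

theorem LocalData.psi_inv (i : L.I) {x : E} (hx : L.InB i x) : L.psi i (L.inv i x) = x := by
  obtain ⟨z, hz, rfl⟩ := hx
  rw [L.inv_psi i hz]

theorem LocalData.inv_le (i : L.I) {x : E} (hx : L.InB i x) : N2 (L.inv i x) ≤ 5 * L.d := by
  obtain ⟨z, hz, rfl⟩ := hx
  rw [L.inv_psi i hz]; exact hz

theorem LocalData.isCompact_im (i : L.I) : IsCompact {x | L.InB i x} := by
  have h := (isCompact_N2 (5 * L.d)).image_of_continuousOn (L.psi_cont i)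
  have he : {x | L.InB i x} = L.psi i '' {z | N2 z ≤ 5 * L.d} := by
    ext x; simp [LocalData.InB]
  rw [he]; exact h

/-- `psi i` is a homeomorphism onto its image -/
theorem LocalData.inv_cont (i : L.I) : ContinuousOn (L.inv i) {x | L.InB i x} := by
  have hc : IsCompact {z : Fin 3 → ℂ | N2 z ≤ 5 * L.d} := isCompact_N2 _
  rw [continuousOn_iff_continuous_domRestrict, continuous_iff_isClosed]
  intro C hC
  have h1 : IsCompact ({z : Fin 3 → ℂ | N2 z ≤ 5 * L.d} ∩ C) := hc.inter_right hC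
  have h2 : IsCompact (L.psi i '' ({z : Fin 3 → ℂ | N2 z ≤ 5 * L.d} ∩ C)) :=
    h1.image_of_continuousOn ((L.psi_cont i).mono inter_subset_left)
  have h3 : ({x | L.InB i x}.domRestrict (L.inv i)) ⁻¹' C =
      Subtype.val ⁻¹' (L.psi i '' ({z : Fin 3 → ℂ | N2 z ≤ 5 * L.d} ∩ C)) := by
    ext ⟨x, hx⟩
    constructor
    · intro h
      exact ⟨L.inv i x, ⟨L.inv_le i hx, h⟩, L.psi_inv i hx⟩
    · rintro ⟨z, ⟨hz, hzC⟩, hzx⟩
      change L.inv i x ∈ C
      change L.psi i z = x at hzx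
      rw [← hzx, L.inv_psi i hz]; exact hzC
  rw [h3]
  exact h2.isClosed.preimage continuous_subtype_val

/-- points of a Morse ball over `S` -/
theorem LocalData.mem_fib {S : Set ℂ} (i : L.I) {z : Fin 3 → ℂ} (hz : N2 z ≤ 5 * L.d)
    (hS : z₁ + qf z ∈ S) : L.psi i z ∈ Fib U p S := by
  obtain ⟨h1, h2, _⟩ := L.psi_mem i z hz
  exact ⟨h1, by rw [h2]; exact hS⟩

theorem LocalData.inB_fib {S : Set ℂ} (i : L.I) {x : E} (hx : L.InB i x)
    (hS : x ∈ Fib U p S) : z₁ + qf (L.inv i x) ∈ S := by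
  obtain ⟨z, hz, rfl⟩ := hx
  rw [L.inv_psi i hz, ← (L.psi_mem i z hz).2.1]
  exact hS.2

theorem fib_mono {E : Type} {U : Set E} {p : E → ℂ} {S S' : Set ℂ} (h : S ⊆ S') : Fib U p S ⊆ Fib U p S' :=
  fun _ hx => ⟨hx.1, h hx.2⟩

/-- two Morse balls with a common point are equal (over the disc) -/
theorem LocalData.inB_iff {i j : L.I} {x : E} (hx : x ∈ Fib U p (Metric.closedBall z₁ L.e))
    (hi : L.InB i x) (hj : L.InB j x) {y : E}
    (hy : y ∈ Fib U p (Metric.closedBall z₁ L.e)) (hyi : L.InB i y) : L.InB j y := by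
  set M : Set (Fin 3 → ℂ) := {z | qf z ∈ Metric.closedBall (0 : ℂ) L.e ∧ N2 z ≤ 5 * L.d} with hM
  have hconn : IsPreconnected M :=
    star_conn (convex_closedBall _ _) (Metric.mem_closedBall_self L.e_pos.le) _
  have hcont : ContinuousOn (L.psi i) M := (L.psi_cont i).mono fun z hz => hz.2
  have himg : IsPreconnected (L.psi i '' M) := hconn.image _ hcont
  have hsub : L.psi i '' M ⊆ Fib U p (Metric.closedBall z₁ L.e) := by
    rintro _ ⟨z, hz, rfl⟩
    refine L.mem_fib i hz.2 ?_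
    have := hz.1
    simpa [Metric.mem_closedBall, dist_eq_norm] using this
  have hmem : ∀ w, w ∈ Fib U p (Metric.closedBall z₁ L.e) → L.InB i w → w ∈ L.psi i '' M := by
    intro w hw hwi
    refine ⟨L.inv i w, ⟨?_, L.inv_le i hwi⟩, L.psi_inv i hwi⟩
    have := L.inB_fib i hwi hw
    simpa [Metric.mem_closedBall, dist_eq_norm] using this
  obtain ⟨O, hO, hOi⟩ := L.sep j
  have hr : ∀ w ∈ L.psi i '' M, L.r w ≤ 5 * L.d := by
    rintro _ ⟨z, hz, rfl⟩
    rw [(L.psi_mem i z hz.2).2.2]; exact hz.2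
  by_contra hcon
  have hcl : IsClosed {x | L.InB j x} := (L.isCompact_im j).isClosed
  have := himg O {x | L.InB j x}ᶜ hO hcl.isOpen_compl (fun w hw => ?_)
    ⟨x, hmem x hx hi, (hOi x hx (hr x (hmem x hx hi))).2 hj⟩
    ⟨y, hmem y hy hyi, hcon⟩
  · obtain ⟨w, hw, hwO, hwj⟩ := this
    exact hwj ((hOi w (hsub hw) (hr w hw)).1 hwO)
  · by_cases hwj : L.InB j w
    · exact Or.inl ((hOi w (hsub hw) (hr w hw)).2 hwj)
    · exact Or.inr hwj

open Classical in
/-- the canonical index of the ball containing `x` -/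
noncomputable def LocalData.idx (i₀ : L.I) (x : E) : L.I :=
  if h : ∃ i, L.InB i x then Classical.choose h else i₀

theorem LocalData.inB_idx (i₀ : L.I) {x : E} (hx : ∃ i, L.InB i x) :
    L.InB (L.idx i₀ x) x := by
  unfold LocalData.idx
  rw [dif_pos hx]
  exact Classical.choose_spec hx

theorem LocalData.idx_eq (i₀ : L.I) {i : L.I} {x y : E}
    (hx : x ∈ Fib U p (Metric.closedBall z₁ L.e)) (hy : y ∈ Fib U p (Metric.closedBall z₁ L.e))
    (hxi : L.InB i x) (hyi : L.InB i y) : L.idx i₀ x = L.idx i₀ y := by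
  have hfun : (fun k => L.InB k x) = fun k => L.InB k y := by
    funext k
    apply propext
    constructor
    · intro hk
      exact L.inB_iff hx hxi hk hy hyi
    · intro hk
      exact L.inB_iff hy hyi hk hx hxi
  have e1 : (∃ k, L.InB k x) := ⟨i, hxi⟩
  have e2 : (∃ k, L.InB k y) := ⟨i, hyi⟩
  unfold LocalData.idx
  rw [dif_pos e1, dif_pos e2]
  congr 1

/-- gluing functions on the Morse balls -/
theorem LocalData.glue_balls {F : Type} [TopologicalSpace F] (i₀ : L.I)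
    {S : Set ℂ} (hS : S ⊆ Metric.closedBall z₁ L.e)
    {c : ℝ} (hc : c ≤ 5 * L.d) (g : L.I → (Fin 3 → ℂ) → F)
    (hg : ∀ i, ContinuousOn (g i) {z | z₁ + qf z ∈ S ∧ N2 z ≤ c}) :
    ContinuousOn (fun x => g (L.idx i₀ x) (L.inv (L.idx i₀ x) x))
      {x | x ∈ Fib U p S ∧ L.r x ≤ c} := by
  intro x hx
  have hxF : x ∈ Fib U p (Metric.closedBall z₁ L.e) := fib_mono hS hx.1
  have hex : ∃ i, L.InB i x := L.ball x hxF (hx.2.trans hc)
  set i := L.idx i₀ x with hi
  have hxi : L.InB i x := L.inB_idx i₀ hex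
  obtain ⟨O, hO, hOi⟩ := L.sep i
  have hxO : x ∈ O := (hOi x hxF (hx.2.trans hc)).2 hxi
  -- near `x` the index is `i`
  have hnear : ∀ᶠ y in 𝓝[{x | x ∈ Fib U p S ∧ L.r x ≤ c}] x, L.InB i y ∧ L.idx i₀ y = i := by
    filter_upwards [self_mem_nhdsWithin, mem_nhdsWithin_of_mem_nhds (hO.mem_nhds hxO)]
      with y hy hyO
    have hyF : y ∈ Fib U p (Metric.closedBall z₁ L.e) := fib_mono hS hy.1
    have hyi : L.InB i y := (hOi y hyF (hy.2.trans hc)).1 hyO
    exact ⟨hyi, (L.idx_eq i₀ hyF hxF hyi hxi).trans hi.symm⟩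
  have hmaps : MapsTo (L.inv i) ({x | x ∈ Fib U p S ∧ L.r x ≤ c} ∩ {x | L.InB i x})
      {z | z₁ + qf z ∈ S ∧ N2 z ≤ c} := by
    intro y hy
    refine ⟨L.inB_fib i hy.2 hy.1.1, ?_⟩
    have h3 := (L.psi_mem i (L.inv i y) (L.inv_le i hy.2)).2.2
    rw [L.psi_inv i hy.2] at h3
    rw [← h3]; exact hy.1.2
  have hc1 : ContinuousOn (fun y => g i (L.inv i y))
      ({x | x ∈ Fib U p S ∧ L.r x ≤ c} ∩ {x | L.InB i x}) :=
    (hg i).comp ((L.inv_cont i).mono inter_subset_right) hmaps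
  have hc2 : ContinuousWithinAt (fun y => g i (L.inv i y))
      ({x | x ∈ Fib U p S ∧ L.r x ≤ c} ∩ {x | L.InB i x}) x := hc1 x ⟨hx, hxi⟩
  have hc3 : ContinuousWithinAt (fun y => g i (L.inv i y))
      {x | x ∈ Fib U p S ∧ L.r x ≤ c} x := by
    refine hc2.mono_of_mem_nhdsWithin ?_
    filter_upwards [self_mem_nhdsWithin, hnear] with y hy hy2
    exact ⟨hy, hy2.1⟩
  refine hc3.congr_of_eventuallyEq ?_ ?_
  · filter_upwards [hnear] with y hy
    simp only [hy.2]
  · simp only [← hi]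

end Pool.Agent.LF
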