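import Pool.Agent.LF.Milnor

/-!
# Local data of a Lefschetz fibration near a point of the base, and the property `PP`
-/

open Set Filter Topology

namespace Pool.Agent.LF

/-- the part of `U` over `S` -/
def Fib {E : Type} (U : Set E) (p : E → ℂ) (S : Set ℂ) : Set E := {x | x ∈ U ∧ p x ∈ S}

/-- extension, logarithm and uniqueness properties of `p` over `S` -/
structure PP {E : Type} [TopologicalSpace E] (U : Set E) (p : E → ℂ) (S : Set ℂ) : Prop where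
  ext : ∀ z ∈ S, ∀ A : E → ℂ, ContinuousOn A (Fib U p {z}) → (∀ x ∈ Fib U p {z}, A x ≠ 0) →
    ∃ A' : E → ℂ, ContinuousOn A' (Fib U p S) ∧ (∀ x ∈ Fib U p S, A' x ≠ 0) ∧
      ∀ x ∈ Fib U p {z}, A' x = A x
  log : ∀ z ∈ S, ∀ A : E → ℂ, ContinuousOn A (Fib U p S) → (∀ x ∈ Fib U p S, A x ≠ 0) →
    ∀ f₀ : E → ℂ, ContinuousOn f₀ (Fib U p {z}) →
      (∀ x ∈ Fib U p {z}, Complex.exp (f₀ x) = A x) →
      ∃ f : E → ℂ, ContinuousOn f (Fib U p S) ∧ (∀ x ∈ Fib U p S, Complex.exp (f x) = A x) ∧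
        ∀ x ∈ Fib U p {z}, f x = f₀ x
  uniq : ∀ z ∈ S, ∀ d : E → ℂ, ContinuousOn d (Fib U p S) →
    (∀ x ∈ Fib U p S, Complex.exp (d x) = 1) → (∀ x ∈ Fib U p {z}, d x = 0) →
    ∀ x ∈ Fib U p S, d x = 0

/-- Local data near `z₁`: Morse balls `psi i '' {N2 ≤ 5 d}` with Morse radius `r`, and a
transport `T x w` to the fibre over `w`, defined where `r x ≥ d`. -/
structure LocalData {E : Type} [TopologicalSpace E] (U : Set E) (p : E → ℂ) (z₁ : ℂ) where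
  e : ℝ
  d : ℝ
  r : E → ℝ
  I : Type
  psi : I → (Fin 3 → ℂ) → E
  T : E → ℂ → E
  e_pos : 0 < e
  e_lt : e < d
  r_cont : ContinuousOn r (Fib U p (Metric.closedBall z₁ e))
  psi_cont : ∀ i, ContinuousOn (psi i) {z | N2 z ≤ 5 * d}
  psi_inj : ∀ i, InjOn (psi i) {z | N2 z ≤ 5 * d}
  psi_mem : ∀ i, ∀ z, N2 z ≤ 5 * d → psi i z ∈ U ∧ p (psi i z) = z₁ + qf z ∧
    r (psi i z) = N2 z
  ball : ∀ x ∈ Fib U p (Metric.closedBall z₁ e), r x ≤ 5 * d → ∃ i z, N2 z ≤ 5 * d ∧ psi i z = x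
  sep : ∀ i, ∃ O : Set E, IsOpen O ∧ ∀ x ∈ Fib U p (Metric.closedBall z₁ e), r x ≤ 5 * d →
    (x ∈ O ↔ ∃ z, N2 z ≤ 5 * d ∧ psi i z = x)
  T_cont : ContinuousOn (fun y : E × ℂ => T y.1 y.2)
    ({x | x ∈ Fib U p (Metric.closedBall z₁ e) ∧ d ≤ r x} ×ˢ Metric.closedBall z₁ e)
  T_mem : ∀ x ∈ Fib U p (Metric.closedBall z₁ e), d ≤ r x → ∀ w ∈ Metric.closedBall z₁ e,
    T x w ∈ U ∧ p (T x w) = w
  T_self : ∀ x ∈ Fib U p (Metric.closedBall z₁ e), d ≤ r x → T x (p x) = x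
  T_near₁ : ∀ x ∈ Fib U p (Metric.closedBall z₁ e), d ≤ r x → r x ≤ 2 * d →
    ∀ w ∈ Metric.closedBall z₁ e, r (T x w) ≤ 3 * d
  T_near₂ : ∀ x ∈ Fib U p (Metric.closedBall z₁ e), d ≤ r x → r x ≤ 4 * d →
    ∀ w ∈ Metric.closedBall z₁ e, r (T x w) ≤ 5 * d

end Pool.Agent.LF
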