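import Pool.Agent.LF.Mg_MP_639418_gt.G001

/-! # Task LogB: logarithms of nonvanishing continuous functions -/

open Set Filter Topology

namespace Pool.Agent.LF

variable {E : Type} [TopologicalSpace E]

/-- a function with `exp d = 1` on a preconnected set is constant there -/
private theorem log_const {M : Set E} (hM : IsPreconnected M) {d : E → ℂ} (hd : ContinuousOn d M)
    (h1 : ∀ x ∈ M, Complex.exp (d x) = 1) {x y : E} (hx : x ∈ M) (hy : y ∈ M) : d x = d y := by
  have hdisc : IsDiscrete ((AddSubgroup.zmultiples (2 * Real.pi * Complex.I : ℂ) :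
      AddSubgroup ℂ) : Set ℂ) :=
    isDiscrete_iff_discreteTopology.2 (NormedSpace.discreteTopology_zmultiples _)
  refine hM.constant_of_mapsTo hdisc hd ?_ hx hy
  intro z hz
  obtain ⟨n, hn⟩ := Complex.exp_eq_one_iff.1 (h1 z hz)
  simp only [SetLike.mem_coe, AddSubgroup.mem_zmultiples_iff]
  exact ⟨n, by rw [hn]; simp⟩

/-- a function with `exp d = 1` on a preconnected set which vanishes somewhere is zero -/
theorem log_unique {M : Set E} (hM : IsPreconnected M) {d : E → ℂ} (hd : ContinuousOn d M)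
    (h1 : ∀ x ∈ M, Complex.exp (d x) = 1) {x₀ : E} (hx₀ : x₀ ∈ M) (h0 : d x₀ = 0) :
    ∀ x ∈ M, d x = 0 := by
  intro x hx
  rw [log_const hM hd h1 hx hx₀, h0]

/-- if `M` contracts to a point inside `M` then it has the logarithm property -/
theorem HasLog.of_contract {M : Set E} (H : E → ℝ → E) (x₀ : E)
    (hH : ContinuousOn (fun p : E × ℝ => H p.1 p.2) (M ×ˢ Icc (0 : ℝ) 1))
    (hM : ∀ x ∈ M, ∀ s ∈ Icc (0 : ℝ) 1, H x s ∈ M) (h0 : ∀ x ∈ M, H x 0 = x₀)
    (h1 : ∀ x ∈ M, H x 1 = x) : HasLog M := by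
  intro A hA hA0
  obtain ⟨f, hf, hfe, -⟩ := log_homotopyOn M (fun x s => A (H x s))
    (hA.comp hH (fun p hp => hM p.1 hp.1 p.2 hp.2))
    (fun x hx s hs => hA0 _ (hM x hx s hs))
    (fun _ => Complex.log (A x₀)) continuousOn_const (by
      intro x hx
      have hx0 : x₀ ∈ M := by
        rw [← h0 x hx]; exact hM x hx 0 (by simp)
      rw [h0 x hx, Complex.exp_log (hA0 _ hx0)])
  refine ⟨fun x => f x 1, ?_, ?_⟩
  · have : ContinuousOn (fun x : E => (x, (1 : ℝ))) M := by fun_prop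
    exact hf.comp this (fun x hx => ⟨hx, by simp⟩)
  · intro x hx
    have := hfe x hx 1 (by simp)
    rw [this, h1 x hx]

theorem isPreconnected_of_contract {M : Set E} (H : E → ℝ → E) (x₀ : E)
    (hH : ContinuousOn (fun p : E × ℝ => H p.1 p.2) (M ×ˢ Icc (0 : ℝ) 1))
    (hM : ∀ x ∈ M, ∀ s ∈ Icc (0 : ℝ) 1, H x s ∈ M) (h0 : ∀ x ∈ M, H x 0 = x₀)
    (h1 : ∀ x ∈ M, H x 1 = x) : IsPreconnected M := by
  apply isPreconnected_of_forall x₀
  intro y hy
  refine ⟨(fun s => H y s) '' Icc (0 : ℝ) 1, ?_, ⟨0, by simp, h0 y hy⟩, ⟨1, by simp, h1 y hy⟩, ?_⟩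
  · rintro _ ⟨s, hs, rfl⟩
    exact hM y hy s hs
  · apply isPreconnected_Icc.image
    have : ContinuousOn (fun s : ℝ => (y, s)) (Icc (0 : ℝ) 1) := by fun_prop
    exact hH.comp this (fun s hs => ⟨hy, hs⟩)

/-- gluing logarithms on two closed sets with connected intersection -/
theorem HasLog.union {M₁ M₂ : Set E} (h₁ : HasLog M₁) (h₂ : HasLog M₂) (c₁ : IsClosed M₁)
    (c₂ : IsClosed M₂) (hc : IsPreconnected (M₁ ∩ M₂)) (hne : (M₁ ∩ M₂).Nonempty) :
    HasLog (M₁ ∪ M₂) := by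
  classical
  intro A hA hA0
  obtain ⟨f₁, hf₁, he₁⟩ := h₁ A (hA.mono subset_union_left) (fun x hx => hA0 x (Or.inl hx))
  obtain ⟨f₂, hf₂, he₂⟩ := h₂ A (hA.mono subset_union_right) (fun x hx => hA0 x (Or.inr hx))
  obtain ⟨x₀, hx₀⟩ := hne
  have key : ∀ x ∈ M₁ ∩ M₂, f₁ x - f₂ x = f₁ x₀ - f₂ x₀ := by
    intro x hx
    refine log_const (d := fun x => f₁ x - f₂ x) hc
      ((hf₁.mono inter_subset_left).sub (hf₂.mono inter_subset_right)) ?_ hx hx₀
    intro y hy
    rw [Complex.exp_sub, he₁ y hy.1, he₂ y hy.2, div_self (hA0 y (Or.inl hy.1))]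
  refine ⟨fun x => if x ∈ M₁ then f₁ x else f₂ x + (f₁ x₀ - f₂ x₀), ?_, ?_⟩
  · apply ContinuousOn.union_of_isClosed _ _ c₁ c₂
    · exact hf₁.congr (fun x hx => by simp [hx])
    · refine (hf₂.add (continuousOn_const (c := f₁ x₀ - f₂ x₀))).congr (fun x hx => ?_)
      by_cases h : x ∈ M₁
      · have := key x ⟨h, hx⟩
        simp only [h, if_true, Pi.add_apply]
        rw [← this]; ring
      · simp [h]
  · intro x hx
    by_cases h : x ∈ M₁
    · simp only [h, if_true]
      exact he₁ x h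
    · simp only [h, if_false]
      have h2 : x ∈ M₂ := hx.resolve_left h
      rw [Complex.exp_add, he₂ x h2, Complex.exp_sub, he₁ _ hx₀.1, he₂ _ hx₀.2,
        div_self (hA0 _ (Or.inl hx₀.1)), mul_one]

/-- there is no continuous logarithm on a circle -/
theorem no_log_circle {r : ℝ} (hr : 0 < r) (l : ℂ → ℂ)
    (hl : ContinuousOn l (Metric.sphere (0 : ℂ) r)) :
    ¬ ∀ z ∈ Metric.sphere (0 : ℂ) r, Complex.exp (l z) = z := by
  intro h
  have hmem : ∀ t : ℝ, (r : ℂ) * Complex.exp (t * Complex.I) ∈ Metric.sphere (0 : ℂ) r := by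
    intro t
    simp [Complex.norm_exp_ofReal_mul_I, abs_of_pos hr]
  have hcont : Continuous (fun t : ℝ => l ((r : ℂ) * Complex.exp (t * Complex.I)) -
      (Real.log r + t * Complex.I)) := by
    apply Continuous.sub
    · exact hl.comp_continuous (by fun_prop) hmem
    · fun_prop
  have h1 : ∀ t ∈ (univ : Set ℝ), Complex.exp ((fun t : ℝ =>
      l ((r : ℂ) * Complex.exp (t * Complex.I)) - (Real.log r + t * Complex.I)) t) = 1 := by
    intro t _
    have hr0 : (r : ℂ) ≠ 0 := by exact_mod_cast hr.ne'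
    simp only
    rw [Complex.exp_sub, h _ (hmem t), Complex.exp_add, ← Complex.ofReal_exp, Real.exp_log hr,
      div_self]
    exact mul_ne_zero hr0 (Complex.exp_ne_zero _)
  have h2 := log_const isPreconnected_univ hcont.continuousOn h1 (mem_univ (0 : ℝ))
    (mem_univ (2 * Real.pi))
  simp only [Complex.ofReal_zero, zero_mul, Complex.exp_zero, add_zero] at h2
  have h3 : Complex.exp (((2 * Real.pi : ℝ) : ℂ) * Complex.I) = 1 := by
    push_cast
    exact Complex.exp_two_pi_mul_I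
  rw [h3] at h2
  have h4 : ((2 * Real.pi : ℝ) : ℂ) * Complex.I = 0 := by
    linear_combination h2
  have h5 : ((2 * Real.pi : ℝ) : ℂ) ≠ 0 := by
    exact_mod_cast (by positivity : (2 * Real.pi : ℝ) ≠ 0)
  exact (mul_ne_zero h5 Complex.I_ne_zero) h4

end Pool.Agent.LF
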