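import Pool.Agent.LF.Mg_MP_639418_gt.G001
import Pool.Agent.LF.Local

/-! # Task Quo: compactness in the quotient `U6 / G6` -/

open Set Filter Topology
open scoped ContDiff

namespace Pool.Agent.LF

theorem bdd_mono {S T : Set E6} (h : Q6.Bdd T) (hST : S ⊆ T) : Q6.Bdd S := by
  obtain ⟨K, hK, hKc, h⟩ := h
  exact ⟨K, hK, hKc, fun x hx => h x (hST hx)⟩

theorem bdd_union {S T : Set E6} (hS : Q6.Bdd S) (hT : Q6.Bdd T) : Q6.Bdd (S ∪ T) := by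
  obtain ⟨K, hK, hKc, h⟩ := hS
  obtain ⟨L, hL, hLc, h'⟩ := hT
  refine ⟨K ∪ L, union_subset hK hL, hKc.union hLc, ?_⟩
  rintro x (hx | hx)
  · obtain ⟨g, hg, hgx⟩ := h x hx
    exact ⟨g, hg, Or.inl hgx⟩
  · obtain ⟨g, hg, hgx⟩ := h' x hx
    exact ⟨g, hg, Or.inr hgx⟩

theorem bdd_image {F : Type} [NormedAddCommGroup F] {S : Set E6} (hS : S ⊆ U6)
    (hb : Q6.Bdd S) {f : E6 → F} (hf : ContinuousOn f U6)
    (hG : ∀ g ∈ G6, ∀ x ∈ U6, f (g x) = f x) : ∃ c : ℝ, ∀ x ∈ S, ‖f x‖ ≤ c := by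
  obtain ⟨K, hK, hKc, h⟩ := hb
  obtain ⟨c, hc⟩ := hKc.exists_bound_of_continuousOn (hf.mono hK)
  refine ⟨c, fun x hx => ?_⟩
  obtain ⟨g, hg, hgx⟩ := h x hx
  rw [← hG g hg x (hS hx)]
  exact hc _ hgx

/-- an invariant closed subset of the quotient which is bounded has a compact fundamental set -/
theorem compact_rep {S : Set E6} (hS : S ⊆ U6) (hc : ∀ x ∈ U6, x ∈ closure S → x ∈ S)
    (hG : ∀ g ∈ G6, ∀ x ∈ S, g x ∈ S) (hb : Q6.Bdd S) :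
    ∃ K ⊆ S, IsCompact K ∧ ∀ x ∈ S, ∃ g ∈ G6, g x ∈ K := by
  obtain ⟨K, hK, hKc, h⟩ := hb
  have hKS : K ∩ S = K ∩ closure S := by
    ext x
    exact ⟨fun hx => ⟨hx.1, subset_closure hx.2⟩, fun hx => ⟨hx.1, hc x (hK hx.1) hx.2⟩⟩
  refine ⟨K ∩ S, inter_subset_right, ?_, ?_⟩
  · rw [hKS]; exact hKc.inter_right isClosed_closure
  · intro x hx
    obtain ⟨g, hg, hgx⟩ := h x hx
    exact ⟨g, hg, hgx, hG g hg x hx⟩

/-- the closure in `U6` of a bounded set is bounded -/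
theorem bdd_closure {S : Set E6} (hb : Q6.Bdd S) : Q6.Bdd {x | x ∈ U6 ∧ x ∈ closure S} := by
  obtain ⟨K, hK, hKc, h⟩ := hb
  refine ⟨K, hK, hKc, ?_⟩
  rintro x ⟨hxU, hxS⟩
  -- a compact neighbourhood of `x` in `U6`
  obtain ⟨L, hLn, hLU, hLc⟩ := local_compact_nhds (isOpen_U6.mem_nhds hxU)
  have hfin := disc6 (K ∪ L) (union_subset hK hLU) (hKc.union hLc)
  set F := {g | g ∈ G6 ∧ ∃ x ∈ K ∪ L, g x ∈ K ∪ L} with hF
  have hclosed : IsClosed (⋃ g ∈ F, (L ∩ g ⁻¹' K)) := by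
    apply hfin.isClosed_biUnion
    intro g hg
    exact hLc.isClosed.inter (hKc.isClosed.preimage (smooth6 g hg.1).continuous)
  have hmem : x ∈ closure (⋃ g ∈ F, (L ∩ g ⁻¹' K)) := by
    rw [mem_closure_iff_nhds] at hxS ⊢
    intro t ht
    obtain ⟨y, ⟨hyt, hyL⟩, hyS⟩ := hxS (t ∩ L) (inter_mem ht hLn)
    obtain ⟨g, hg, hgy⟩ := h y hyS
    refine ⟨y, hyt, mem_iUnion₂.2 ⟨g, ⟨hg, y, Or.inr hyL, Or.inl hgy⟩, hyL, hgy⟩⟩
  rw [hclosed.closure_eq] at hmem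
  obtain ⟨g, hg, hgx⟩ := mem_iUnion₂.1 hmem
  exact ⟨g, hg.1, hgx.2⟩

/-- compactness principle: a neighbourhood of the fibre over `z` contains the nearby fibres -/
theorem shrink {S : Set E6} (hS : S ⊆ U6) (hc : ∀ x ∈ U6, x ∈ closure S → x ∈ S)
    (hG : ∀ g ∈ G6, ∀ x ∈ S, g x ∈ S) (hb : Q6.Bdd S) {p : E6 → ℂ} (hp : ContinuousOn p U6)
    (hpG : ∀ g ∈ G6, ∀ x ∈ U6, p (g x) = p x) {z : ℂ} {O : Set E6} (hO : IsOpen O)
    (hOG : ∀ g ∈ G6, ∀ x ∈ U6, g x ∈ O → x ∈ O) (h : ∀ x ∈ S, p x = z → x ∈ O) :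
    ∃ e > 0, ∀ x ∈ S, ‖p x - z‖ ≤ e → x ∈ O := by
  obtain ⟨K, hK, hKc, hrep⟩ := compact_rep hS hc hG hb
  have hKO : IsCompact (K \ O) := hKc.diff hO
  have hcont : ContinuousOn (fun x => ‖p x - z‖) (K \ O) :=
    ((hp.mono ((diff_subset.trans hK).trans hS)).sub continuousOn_const).norm
  have key : ∃ e > 0, ∀ x ∈ K \ O, e < ‖p x - z‖ := by
    rcases (K \ O).eq_empty_or_nonempty with hemp | hne
    · exact ⟨1, one_pos, by rw [hemp]; simp⟩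
    · obtain ⟨x₀, hx₀, hmin⟩ := hKO.exists_isMinOn hne hcont
      have hpos : 0 < ‖p x₀ - z‖ := by
        rw [norm_pos_iff, sub_ne_zero]
        intro heq
        exact hx₀.2 (h x₀ (hK hx₀.1) heq)
      refine ⟨‖p x₀ - z‖ / 2, by positivity, fun x hx => ?_⟩
      have := hmin hx
      simp only [mem_ofPred_eq] at this
      linarith
  obtain ⟨e, he, hek⟩ := key
  refine ⟨e, he, fun x hx hxe => ?_⟩
  obtain ⟨g, hg, hgx⟩ := hrep x hx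
  have hpx : p (g x) = p x := hpG g hg x (hS hx)
  by_cases hgO : g x ∈ O
  · exact hOG g hg x (hS hx) hgO
  · have := hek (g x) ⟨hgx, hgO⟩
    rw [hpx] at this
    exact absurd hxe (not_le.2 this)

end Pool.Agent.LF
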