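import Pool.Agent.LF.VolB
import Pool.Agent.LF.Mg_MP_639418_gt.G002
import Pool.Agent.LF.Mg_MP_639418_gt.G004
import Pool.Agent.LF.Mg_MP_639418_gt.G005
import Pool.Agent.LF.Mg_MP_639418_gt.G003
import Pool.Agent.LF.Mg_MP_639418_gt.G001

/-! # Assembly -/

open Set Filter Topology
open scoped ContDiff

namespace Pool.Agent.LF

/-- the property `PP` for all rectangles -/
theorem pp_rec {p : E6 → ℂ} (hp : IsLefschetz X6 p) :
    ∀ a b c d : ℝ, a ≤ b → c ≤ d → PP U6 p (Rec a b c d) := by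
  have hpc : ContinuousOn p U6 := hp.smooth.continuousOn
  refine rec_induction (P := fun S => PP U6 p S) ?_ ?_ ?_
  · intro z
    obtain ⟨L⟩ := exists_localData hp z
    refine ⟨L.e, L.e_pos, fun a b c d hz hS => ?_⟩
    have hc := convex_rec a b c d
    exact ⟨L.ext hpc hc hz hS, L.log hpc hc hz hS, L.uniq hpc hc hz hS⟩
  · intro a b c d t hat htb hcd h1 h2 h3
    have hu : Rec a b c d = Rec a t c d ∪ Rec t b c d := by
      ext z
      simp only [Rec, mem_ofPred_eq, mem_union]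
      constructor
      · rintro ⟨h1, h2, h3, h4⟩
        rcases le_total z.re t with h | h
        · exact Or.inl ⟨h1, h, h3, h4⟩
        · exact Or.inr ⟨h, h2, h3, h4⟩
      · rintro (⟨h1, h2, h3, h4⟩ | ⟨h1, h2, h3, h4⟩)
        · exact ⟨h1, h2.trans htb, h3, h4⟩
        · exact ⟨hat.trans h1, h2, h3, h4⟩
    have hi : Rec a t c d ∩ Rec t b c d = Rec t t c d := by
      ext z
      simp only [Rec, mem_ofPred_eq, mem_inter_iff]
      constructor
      · rintro ⟨⟨h1, h2, h3, h4⟩, h5, h6, h7, h8⟩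
        exact ⟨h5, h2, h3, h4⟩
      · rintro ⟨h1, h2, h3, h4⟩
        exact ⟨⟨hat.trans h1, h2, h3, h4⟩, h1, h2.trans htb, h3, h4⟩
    rw [hu]
    refine PP.union hpc (isClosed_rec _ _ _ _) (isClosed_rec _ _ _ _) h1 h2 (by rw [hi]; exact h3) ?_
    rw [hi]
    exact ⟨⟨t, c⟩, le_refl t, le_refl t, le_refl c, hcd⟩
  · intro a b c d t hab hct htd h1 h2 h3
    have hu : Rec a b c d = Rec a b c t ∪ Rec a b t d := by
      ext z
      simp only [Rec, mem_ofPred_eq, mem_union]
      constructor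
      · rintro ⟨h1, h2, h3, h4⟩
        rcases le_total z.im t with h | h
        · exact Or.inl ⟨h1, h2, h3, h⟩
        · exact Or.inr ⟨h1, h2, h, h4⟩
      · rintro (⟨h1, h2, h3, h4⟩ | ⟨h1, h2, h3, h4⟩)
        · exact ⟨h1, h2, h3, h4.trans htd⟩
        · exact ⟨h1, h2, hct.trans h3, h4⟩
    have hi : Rec a b c t ∩ Rec a b t d = Rec a b t t := by
      ext z
      simp only [Rec, mem_ofPred_eq, mem_inter_iff]
      constructor
      · rintro ⟨⟨h1, h2, h3, h4⟩, h5, h6, h7, h8⟩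
        exact ⟨h1, h2, h7, h4⟩
      · rintro ⟨h1, h2, h3, h4⟩
        exact ⟨⟨h1, h2, hct.trans h3, h4⟩, h1, h2, h3, h4.trans htd⟩
    rw [hu]
    refine PP.union hpc (isClosed_rec _ _ _ _) (isClosed_rec _ _ _ _) h1 h2 (by rw [hi]; exact h3) ?_
    rw [hi]
    exact ⟨⟨a, t⟩, le_refl a, hab, le_refl t, le_refl t⟩

theorem kap_cont : Continuous kap := by
  have h : kap = fun x : E6 => ((m6 x - x 4 ^ 4 : ℝ) : ℂ) + (x 5 : ℝ) * Complex.I := by
    funext x
    apply Complex.ext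
    · rw [Complex.add_re, Complex.ofReal_re]; simp [kap]
    · rw [Complex.add_im, Complex.ofReal_im]; simp [kap]
  rw [h]
  unfold m6
  fun_prop

theorem mem_U_of_C {x : E6} (hx : x ∈ C6) : x ∈ U6 := hx.1

theorem no_fibration {p : E6 → ℂ} (hL : IsLefschetz X6 p)
    (hF : IsFibreSubdomain X6 p C6 h6) : False := by
  obtain ⟨R₀, hb⟩ := exists_big hL hF
  have hpc : ContinuousOn p U6 := hL.smooth.continuousOn
  obtain ⟨eta, Phi, hH⟩ := exists_hor hL
  set R : ℝ := R₀ + 1 with hRdef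
  have hR₀ := hb.pos
  have hR : R₀ < R := by rw [hRdef]; linarith
  have hRpos : 0 < R := by linarith
  -- points over the boundary of the square have `‖p‖ ≥ R`
  have hBdn : ∀ z ∈ Bd R, R ≤ ‖z‖ := by
    intro z hz
    rcases hz.2.1 with h | h
    · rw [← h]; exact Complex.abs_re_le_norm z
    · rw [← h]; exact Complex.abs_im_le_norm z
  have hkne : ∀ x ∈ Fib U6 p (Bd R), kap x ≠ 0 := by
    intro x hx hk
    have hn := hBdn _ hx.2
    have hxC : x ∈ C6 := kap_zero hx.1 (hb.skel x hx.1 (hR.le.trans hn)) hk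
    obtain ⟨h1, h2⟩ := hb.real x hxC (hR.le.trans hn)
    apply hx.2.2.2
    rcases hx.2.2.1 with h | h
    · rw [abs_of_pos h1] at h
      exact Complex.ext (by simpa using h) (by simpa using h2)
    · rw [h2, abs_zero] at h
      linarith
  obtain ⟨A, f, hA1, hA2, hf, heq⟩ :=
    log_ext hpc (pp_rec hL) hRpos kap_cont.continuousOn hkne
  have hFac : Fac p R kap A f := ⟨hRpos, hpc, kap_cont.continuousOn, hA1, hA2, hf, heq⟩
  have hreg : ∀ x ∈ U6, p x = (R : ℂ) → Function.Surjective (fderiv ℝ p x) := by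
    intro x hx hpx
    apply hb.surj x hx
    rw [hpx, Complex.norm_real, Real.norm_of_nonneg hRpos.le]
    exact hR.le
  obtain ⟨e, T, hT⟩ := exists_ret hL (R : ℂ) hreg
  have hnR : ∀ x, p x = (R : ℂ) → R₀ ≤ ‖p x‖ := by
    intro x hpx
    rw [hpx, Complex.norm_real, Real.norm_of_nonneg hRpos.le]
    exact hR.le
  -- the set of bad points
  set B : Set E6 := {x | x ∈ U6 ∧ p x = R ∧ x ∉ C6 ∧ ∃ g ∈ G6, ¬ Good p R f (g x)} with hBdef
  have hkneW : ∀ x ∈ U6, p x = (R : ℂ) → x ∉ C6 → kap x ≠ 0 := by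
    intro x hx hpx hxC hk
    exact hxC (kap_zero hx (hb.skel x hx (hnR x hpx)) hk)
  have hCG : ∀ g ∈ G6, ∀ x ∈ U6, (g x ∈ C6 ↔ x ∈ C6) := fun g hg x hx => C_G6 g hg x hx
  have hpG : ∀ g ∈ G6, ∀ x ∈ U6, p (g x) = p x := fun g hg x hx => hL.inv g hg x hx
  have hVB : VolSet p R B := by
    refine ⟨fun x hx => ⟨hx.1, hx.2.1, hx.2.2.1⟩, ?_, ?_, ?_⟩
    · -- invariance
      intro g hg x hx
      constructor
      · rintro ⟨_, h2, h3, g', hg', h4⟩
        exact ⟨hx, by rw [← hpG g hg x hx]; exact h2, fun h => h3 ((hCG g hg x hx).2 h),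
          g' ∘ g, comp_mem6 g' hg' g hg, h4⟩
      · rintro ⟨_, h2, h3, g', hg', h4⟩
        obtain ⟨gi, hgi, hl, hr⟩ := inv_mem6 g hg
        refine ⟨maps6 g hg x hx, by rw [hpG g hg x hx]; exact h2,
          fun h => h3 ((hCG g hg x hx).1 h), g' ∘ gi, comp_mem6 g' hg' gi hgi, ?_⟩
        simpa [hl] using h4
    · -- relatively clopen
      intro x hx hpx hxC
      have hkO : {y | kap y ≠ 0} ∈ 𝓝 x :=
        (isOpen_ne_fun kap_cont continuous_const).mem_nhds (hkneW x hx hpx hxC)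
      -- connected neighbourhoods inside `kap ≠ 0`
      obtain ⟨O', hO', hconn⟩ := local_conn hpc hT hx hpx hkO
      refine ⟨O', hO', fun x' hx'O hx' hpx' hx'C => ?_⟩
      obtain ⟨Γ, hΓO, hΓc, hxΓ, hx'Γ, hΓ⟩ := hconn x' hx'O hx' hpx'
      have key : ∀ g ∈ G6, (Good p R f (g x') ↔ Good p R f (g x)) := by
        intro g hg
        -- `g '' Γ` is preconnected and `Good` is locally constant on it
        have hgc : Continuous g := (smooth6 g hg).continuous
        have hΓg : IsPreconnected (g '' Γ) := hΓc.image g hgc.continuousOn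
        have hprop : ∀ y ∈ g '' Γ, y ∈ U6 ∧ p y = (R : ℂ) ∧ kap y ≠ 0 := by
          rintro y ⟨z, hz, rfl⟩
          have hz' := hΓ z hz
          exact ⟨maps6 g hg z hz'.1, by rw [hpG g hg z hz'.1]; exact hz'.2,
            by rw [kap_G6 g hg]; exact hΓO hz⟩
        -- clopen argument
        have hloc : ∀ y ∈ g '' Γ, ∃ O ∈ 𝓝 y, ∀ y' ∈ O, y' ∈ g '' Γ →
            (Good p R f y' ↔ Good p R f y) := by
          intro y hy
          obtain ⟨h1, h2, h3⟩ := hprop y hy
          obtain ⟨O, hO, hO'⟩ := good_loc hFac hT h1 h2 h3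
          exact ⟨O, hO, fun y' hy' hy'' => hO' y' hy' (hprop y' hy'').1 (hprop y' hy'').2.1⟩
        have := hΓg.induction₂ (fun a b => Good p R f a ↔ Good p R f b) ?_ ?_ ?_
          (mem_image_of_mem g hx'Γ) (mem_image_of_mem g hxΓ)
        · exact this
        · intro y hy
          obtain ⟨O, hO, hO'⟩ := hloc y hy
          filter_upwards [nhdsWithin_le_nhds hO, self_mem_nhdsWithin] with y' h1 h2
          exact (hO' y' h1 h2).symm
        · exact fun a b c _ _ _ h1 h2 => h1.trans h2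
        · exact fun a b _ _ h => h.symm
      constructor
      · rintro ⟨_, _, _, g, hg, h4⟩
        exact ⟨hx, hpx, hxC, g, hg, fun h => h4 ((key g hg).2 h)⟩
      · rintro ⟨_, _, _, g, hg, h4⟩
        exact ⟨hx', hpx', hx'C, g, hg, fun h => h4 ((key g hg).1 h)⟩
    · -- bounded
      have hZ : Q6.Bdd {x | x ∈ U6 ∧ kap x = 0 ∧ ‖p x‖ ≤ 2 * R} := by
        refine bdd_mono (bdd_union (hb.bddC (2 * R)) (rho_proper6 0)) ?_
        rintro x ⟨hx, hk, hn⟩
        rcases lt_or_ge 0 (rho6 x) with h | h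
        · exact Or.inl ⟨kap_zero hx h hk, hn⟩
        · exact Or.inr ⟨hx, h⟩
      obtain ⟨c, hc⟩ := bdd_image (fun x hx => hx.1) hZ hH.cont hH.inv
      have hend : ∀ x ∈ U6, p x = (R : ℂ) → max 1 c < eta x → Good p R f x := by
        intro x hx hpx hη
        have h1 : 1 < eta x := lt_of_le_of_lt (le_max_left _ _) hη
        have h2 : c < eta x := lt_of_le_of_lt (le_max_right _ _) hη
        refine good_end hFac hT hx hpx (fun w => Phi x w) ?_ ?_ ?_
        · have : ContinuousOn (fun w : ℂ => ((x, w) : E6 × ℂ)) (Rec (-R) R (-R) R) :=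
            (by fun_prop : Continuous (fun w : ℂ => ((x, w) : E6 × ℂ))).continuousOn
          exact hH.Phi_cont.comp this fun w _ => ⟨⟨hx, h1⟩, mem_univ _⟩
        · have := hH.Phi_self x hx h1
          rw [hpx] at this
          exact this
        · intro w hw
          obtain ⟨h3, h4, h5⟩ := hH.Phi_mem x hx h1 w
          refine ⟨h3, h5, fun hk => ?_⟩
          have hw' : ‖w‖ ≤ 2 * R := by
            refine (Complex.norm_le_abs_re_add_abs_im w).trans ?_
            have h6 : |w.re| ≤ R := abs_le.2 ⟨hw.1, hw.2.1⟩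
            have h7 : |w.im| ≤ R := abs_le.2 ⟨hw.2.2.1, hw.2.2.2⟩
            linarith
          have := hc (Phi x w) ⟨h3, hk, by rw [h5]; exact hw'⟩
          rw [h4, Real.norm_eq_abs] at this
          have h8 := le_abs_self (eta x)
          linarith
      refine bdd_mono (hH.proper (max (max 1 c) R)) ?_
      rintro x ⟨hx, hpx, _, g, hg, hbad⟩
      refine ⟨hx, ?_, ?_⟩
      · by_contra hlt
        apply hbad
        apply hend (g x) (maps6 g hg x hx) (by rw [hpG g hg x hx]; exact hpx)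
        rw [hH.inv g hg x hx]
        exact lt_of_le_of_lt (le_max_left _ _) (not_le.1 hlt)
      · rw [hpx, Complex.norm_real, Real.norm_of_nonneg hRpos.le]
        exact le_max_right _ _
  have hBe : B = ∅ := vol hL hb hR hT hVB
  have hgood1 : ∀ x ∈ U6, p x = (R : ℂ) → x ∉ C6 → Good p R f x := by
    intro x hx hpx hxC
    by_contra h
    have : x ∈ B := ⟨hx, hpx, hxC, id, id_mem6, h⟩
    rw [hBe] at this
    exact this
  have hgood2 : ∀ x ∈ U6, p x = (R : ℂ) → kap x ≠ 0 → Good p R f x := by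
    intro x hx hpx hk
    by_cases hxC : x ∈ C6
    · obtain ⟨Γ, hΓc, hxΓ, hΓ, y, hyΓ, hyh⟩ := path_C hL hb hR hxC hpx hk
      have hloc : ∀ z ∈ Γ, ∃ O ∈ 𝓝 z, ∀ z' ∈ O, z' ∈ Γ → (Good p R f z' ↔ Good p R f z) := by
        intro z hz
        obtain ⟨h1, h2, h3⟩ := hΓ z hz
        obtain ⟨O, hO, hO'⟩ := good_loc hFac hT h1.1 h2 h3
        exact ⟨O, hO, fun z' hz' hz'' => hO' z' hz' (hΓ z' hz'').1.1 (hΓ z' hz'').2.1⟩
      have hxy : Good p R f x ↔ Good p R f y := by
        refine hΓc.induction₂ (fun a b => Good p R f a ↔ Good p R f b) ?_ ?_ ?_ hxΓ hyΓ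
        · intro z hz
          obtain ⟨O, hO, hO'⟩ := hloc z hz
          filter_upwards [nhdsWithin_le_nhds hO, self_mem_nhdsWithin] with z' h1 h2
          exact (hO' z' h1 h2).symm
        · exact fun a b c _ _ _ h1 h2 => h1.trans h2
        · exact fun a b _ _ h => h.symm
      rw [hxy]
      obtain ⟨hyC, hpy, hky⟩ := hΓ y hyΓ
      obtain ⟨O, hO, hO'⟩ := good_loc hFac hT hyC.1 hpy hky
      obtain ⟨y', hy'O, hy'U, hpy', hy'C⟩ := not_interior hL hb hR hyC hpy hyh O hO
      rw [← hO' y' hy'O hy'U hpy']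
      exact hgood1 y' hy'U hpy' hy'C
    · exact hgood1 x hx hpx hxC
  obtain ⟨y, hyC, hpy, hky⟩ := exists_zero hL hb hR
  obtain ⟨s, t, ht, hs, hs0, hsm⟩ := kap_section hL.smooth hb hR hyC hpy hky
  exact jump hFac hT hyC.1 hpy s ht hs hs0 hsm
    ⟨univ, univ_mem, fun x _ hx hpx hkx => hgood2 x hx hpx hkx⟩

end Pool.Agent.LF
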