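import Pool.Agent.LF.Log

/-!
# Task MilA: the Milnor fibre `z0^2 + z1^2 + z2^2 = w` in a ball of `ℂ^3`
-/

open Set Filter Topology

namespace Pool.Agent.LF

/-- the quadratic form -/
noncomputable def qf (z : Fin 3 → ℂ) : ℂ := ∑ i, z i ^ 2

/-- the squared euclidean norm -/
noncomputable def N2 (z : Fin 3 → ℂ) : ℝ := ∑ i, ‖z i‖ ^ 2

/-- Milnor fibre -/
def Mil (w : ℂ) (d : ℝ) : Set (Fin 3 → ℂ) := {z | qf z = w ∧ N2 z ≤ d}

theorem qf_cont : Continuous qf := by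
  unfold qf; fun_prop

theorem N2_cont : Continuous N2 := by
  unfold N2; fun_prop

theorem norm_qf_le (z : Fin 3 → ℂ) : ‖qf z‖ ≤ N2 z := by
  unfold qf N2
  refine (norm_sum_le _ _).trans (le_of_eq ?_)
  exact Finset.sum_congr rfl fun i _ => norm_pow _ _

theorem N2_nonneg (z : Fin 3 → ℂ) : 0 ≤ N2 z := by
  unfold N2
  exact Finset.sum_nonneg fun i _ => by positivity

theorem isCompact_N2 (d : ℝ) : IsCompact {z : Fin 3 → ℂ | N2 z ≤ d} := by
  refine Metric.isCompact_of_isClosed_isBounded (isClosed_le N2_cont continuous_const) ?_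
  refine (Metric.isBounded_closedBall (x := (0 : Fin 3 → ℂ)) (r := Real.sqrt |d|)).subset ?_
  intro z hz
  rw [mem_closedBall_zero_iff, pi_norm_le_iff_of_nonneg (Real.sqrt_nonneg _)]
  intro i
  refine Real.le_sqrt_of_sq_le ?_
  refine le_trans ?_ (le_trans (show N2 z ≤ d from hz) (le_abs_self d))
  exact Finset.single_le_sum (f := fun i => ‖z i‖ ^ 2) (fun i _ => by positivity)
    (Finset.mem_univ i)

theorem mil_nonempty {w : ℂ} {d : ℝ} (h : ‖w‖ ≤ d) : (Mil w d).Nonempty := by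
  obtain ⟨a, ha⟩ := IsAlgClosed.exists_pow_nat_eq w (n := 2) (by norm_num)
  refine ⟨![a, 0, 0], ?_, ?_⟩
  · simp [qf, Fin.sum_univ_three, ha]
  · have : ‖a‖ ^ 2 = ‖w‖ := by rw [← norm_pow, ha]
    simp [N2, Fin.sum_univ_three, this, h]

private theorem qf_smul (s : ℝ) (z : Fin 3 → ℂ) :
    qf (fun i => (s : ℂ) * z i) = (s : ℂ) ^ 2 * qf z := by
  simp only [qf, mul_pow, Finset.mul_sum]

private theorem N2_smul (s : ℝ) (z : Fin 3 → ℂ) :
    N2 (fun i => (s : ℂ) * z i) = s ^ 2 * N2 z := by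
  simp only [N2, norm_mul, mul_pow, Finset.mul_sum, Complex.norm_real, Real.norm_eq_abs, sq_abs]

private theorem star_mem {S : Set ℂ} (hS : Convex ℝ S) (h0 : (0 : ℂ) ∈ S) (d : ℝ) :
    ∀ z ∈ {z : Fin 3 → ℂ | qf z ∈ S ∧ N2 z ≤ d}, ∀ s ∈ Icc (0 : ℝ) 1,
      (fun i => (s : ℂ) * z i) ∈ {z : Fin 3 → ℂ | qf z ∈ S ∧ N2 z ≤ d} := by
  rintro z ⟨hz1, hz2⟩ s ⟨hs0, hs1⟩
  have hs2 : s ^ 2 ≤ 1 := by nlinarith
  refine ⟨?_, ?_⟩
  · rw [qf_smul]
    have := hS.smul_mem_of_zero_mem h0 hz1 (t := s ^ 2) ⟨by positivity, hs2⟩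
    simpa [Complex.real_smul] using this
  · rw [N2_smul]
    nlinarith [N2_nonneg z]

private theorem star_contr_cont {M : Set (Fin 3 → ℂ)} :
    ContinuousOn (fun p : (Fin 3 → ℂ) × ℝ => (fun i => (p.2 : ℂ) * p.1 i : Fin 3 → ℂ))
      (M ×ˢ Icc (0 : ℝ) 1) := by
  refine Continuous.continuousOn ?_
  fun_prop

/-- the part of the ball over a convex set containing `0` -/
theorem star_conn {S : Set ℂ} (hS : Convex ℝ S) (h0 : (0 : ℂ) ∈ S) (d : ℝ) :
    IsPreconnected {z : Fin 3 → ℂ | qf z ∈ S ∧ N2 z ≤ d} :=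
  isPreconnected_of_contract (fun z s i => (s : ℂ) * z i) 0 star_contr_cont
    (star_mem hS h0 d) (fun z _ => by ext i; simp) (fun z _ => by ext i; simp)

theorem star_log {S : Set ℂ} (hS : Convex ℝ S) (h0 : (0 : ℂ) ∈ S) (d : ℝ) :
    HasLog {z : Fin 3 → ℂ | qf z ∈ S ∧ N2 z ≤ d} :=
  HasLog.of_contract (fun z s i => (s : ℂ) * z i) 0 star_contr_cont
    (star_mem hS h0 d) (fun z _ => by ext i; simp) (fun z _ => by ext i; simp)

end Pool.Agent.LF
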