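import Pool.Agent.LF.MilA

/-! # Task MilB: the Milnor fibre is connected and has the logarithm property -/

open Set Filter Topology

namespace Pool.Agent.LF

/-! ### The two-sphere -/

private def Sph : Set (Fin 3 → ℝ) := {a | a 0 ^ 2 + a 1 ^ 2 + a 2 ^ 2 = 1}
private def SphP : Set (Fin 3 → ℝ) := {a | a ∈ Sph ∧ 0 ≤ a 0}
private def SphN : Set (Fin 3 → ℝ) := {a | a ∈ Sph ∧ a 0 ≤ 0}

private theorem sph_union : SphP ∪ SphN = Sph := by
  ext a
  constructor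
  · rintro (h | h)
    · exact h.1
    · exact h.1
  · intro h
    rcases le_total 0 (a 0) with h0 | h0
    · exact Or.inl ⟨h, h0⟩
    · exact Or.inr ⟨h, h0⟩

private theorem isClosed_sph : IsClosed Sph :=
  isClosed_eq (by fun_prop) continuous_const

private theorem isClosed_sphP : IsClosed SphP :=
  isClosed_sph.inter (isClosed_le continuous_const (continuous_apply 0))

private theorem isClosed_sphN : IsClosed SphN :=
  isClosed_sph.inter (isClosed_le (continuous_apply 0) continuous_const)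

/-- contraction of a closed hemisphere -/
private noncomputable def Hh (e : ℝ) (a : Fin 3 → ℝ) (s : ℝ) : Fin 3 → ℝ :=
  ![e * √(1 - s ^ 2 * (a 1 ^ 2 + a 2 ^ 2)), s * a 1, s * a 2]

private theorem Hh_cont (e : ℝ) : Continuous (fun p : (Fin 3 → ℝ) × ℝ => Hh e p.1 p.2) := by
  unfold Hh
  refine continuous_pi fun i => ?_
  fin_cases i <;> simp <;> fun_prop

private theorem Hh_mem {e : ℝ} (he : e ^ 2 = 1) {a : Fin 3 → ℝ} (ha : a ∈ Sph) {s : ℝ}
    (hs : s ∈ Icc (0 : ℝ) 1) : Hh e a s ∈ Sph := by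
  have ha' : a 0 ^ 2 + a 1 ^ 2 + a 2 ^ 2 = 1 := ha
  have h1 : 0 ≤ 1 - s ^ 2 * (a 1 ^ 2 + a 2 ^ 2) := by
    have h2 : s ^ 2 ≤ 1 := pow_le_one₀ hs.1 hs.2
    have h3 : a 1 ^ 2 + a 2 ^ 2 ≤ 1 := by nlinarith [sq_nonneg (a 0)]
    have h4 : s ^ 2 * (a 1 ^ 2 + a 2 ^ 2) ≤ 1 * 1 :=
      mul_le_mul h2 h3 (by positivity) (by norm_num)
    linarith
  show (Hh e a s) 0 ^ 2 + (Hh e a s) 1 ^ 2 + (Hh e a s) 2 ^ 2 = 1
  have e0 : (Hh e a s) 0 = e * √(1 - s ^ 2 * (a 1 ^ 2 + a 2 ^ 2)) := rfl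
  have e1 : (Hh e a s) 1 = s * a 1 := rfl
  have e2 : (Hh e a s) 2 = s * a 2 := rfl
  rw [e0, e1, e2, mul_pow, he, Real.sq_sqrt h1]
  ring

private theorem Hh_zero (e : ℝ) (a : Fin 3 → ℝ) : Hh e a 0 = ![e, 0, 0] := by
  unfold Hh
  simp

private theorem Hh_one {e : ℝ} {a : Fin 3 → ℝ} (ha : a ∈ Sph) (h0 : e * |a 0| = a 0) :
    Hh e a 1 = a := by
  have ha' : a 0 ^ 2 + a 1 ^ 2 + a 2 ^ 2 = 1 := ha
  have h1 : 1 - (1 : ℝ) ^ 2 * (a 1 ^ 2 + a 2 ^ 2) = a 0 ^ 2 := by linarith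
  funext i
  fin_cases i
  · show e * √(1 - (1 : ℝ) ^ 2 * (a 1 ^ 2 + a 2 ^ 2)) = a 0
    rw [h1, Real.sqrt_sq_eq_abs, h0]
  · show 1 * a 1 = a 1
    rw [one_mul]
  · show 1 * a 2 = a 2
    rw [one_mul]

private theorem Hh_P {a : Fin 3 → ℝ} (ha : a ∈ SphP) {s : ℝ} (hs : s ∈ Icc (0 : ℝ) 1) :
    Hh 1 a s ∈ SphP := by
  refine ⟨Hh_mem (by norm_num) ha.1 hs, ?_⟩
  show 0 ≤ 1 * √(1 - s ^ 2 * (a 1 ^ 2 + a 2 ^ 2))
  positivity

private theorem Hh_N {a : Fin 3 → ℝ} (ha : a ∈ SphN) {s : ℝ} (hs : s ∈ Icc (0 : ℝ) 1) :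
    Hh (-1) a s ∈ SphN := by
  refine ⟨Hh_mem (by norm_num) ha.1 hs, ?_⟩
  show -1 * √(1 - s ^ 2 * (a 1 ^ 2 + a 2 ^ 2)) ≤ 0
  have := Real.sqrt_nonneg (1 - s ^ 2 * (a 1 ^ 2 + a 2 ^ 2))
  linarith

private theorem log_sphP : HasLog SphP :=
  HasLog.of_contract (Hh 1) ![1, 0, 0] (Hh_cont 1).continuousOn (fun _ ha _ hs => Hh_P ha hs)
    (fun a _ => Hh_zero 1 a) (fun a ha => Hh_one ha.1 (by rw [abs_of_nonneg ha.2, one_mul]))

private theorem log_sphN : HasLog SphN :=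
  HasLog.of_contract (Hh (-1)) ![-1, 0, 0] (Hh_cont (-1)).continuousOn
    (fun _ ha _ hs => Hh_N ha hs) (fun a _ => Hh_zero (-1) a)
    (fun a ha => Hh_one ha.1 (by rw [abs_of_nonpos ha.2]; ring))

private theorem conn_sphP : IsPreconnected SphP :=
  isPreconnected_of_contract (Hh 1) ![1, 0, 0] (Hh_cont 1).continuousOn
    (fun _ ha _ hs => Hh_P ha hs)
    (fun a _ => Hh_zero 1 a) (fun a ha => Hh_one ha.1 (by rw [abs_of_nonneg ha.2, one_mul]))

private theorem conn_sphN : IsPreconnected SphN :=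
  isPreconnected_of_contract (Hh (-1)) ![-1, 0, 0] (Hh_cont (-1)).continuousOn
    (fun _ ha _ hs => Hh_N ha hs) (fun a _ => Hh_zero (-1) a)
    (fun a ha => Hh_one ha.1 (by rw [abs_of_nonpos ha.2]; ring))

private theorem inter_mem : (![0, 1, 0] : Fin 3 → ℝ) ∈ SphP ∩ SphN := by
  have h : (![0, 1, 0] : Fin 3 → ℝ) ∈ Sph := by
    show (![0, 1, 0] : Fin 3 → ℝ) 0 ^ 2 + (![0, 1, 0] : Fin 3 → ℝ) 1 ^ 2 +
      (![0, 1, 0] : Fin 3 → ℝ) 2 ^ 2 = 1
    simp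
  exact ⟨⟨h, by simp⟩, ⟨h, by simp⟩⟩

private theorem conn_inter : IsPreconnected (SphP ∩ SphN) := by
  have h : SphP ∩ SphN = (fun t : ℝ => (![0, Real.cos t, Real.sin t] : Fin 3 → ℝ)) '' univ := by
    ext a
    constructor
    · rintro ⟨h1, h2⟩
      have h0 : a 0 = 0 := le_antisymm h2.2 h1.2
      have h3 : a 0 ^ 2 + a 1 ^ 2 + a 2 ^ 2 = 1 := h1.1
      have hn : ‖(⟨a 1, a 2⟩ : ℂ)‖ = 1 := by
        rw [Complex.norm_def, Complex.normSq_mk, Real.sqrt_eq_one]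
        rw [h0] at h3
        nlinarith
      have hne : (⟨a 1, a 2⟩ : ℂ) ≠ 0 := by
        intro h
        rw [h, norm_zero] at hn
        norm_num at hn
      refine ⟨Complex.arg ⟨a 1, a 2⟩, mem_univ _, ?_⟩
      have hc := Complex.cos_arg hne
      have hs := Complex.sin_arg (⟨a 1, a 2⟩ : ℂ)
      rw [hn, div_one] at hc hs
      funext i
      fin_cases i
      · exact h0.symm
      · exact hc
      · exact hs
    · rintro ⟨t, -, rfl⟩
      have h : (![0, Real.cos t, Real.sin t] : Fin 3 → ℝ) ∈ Sph := by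
        show (0 : ℝ) ^ 2 + Real.cos t ^ 2 + Real.sin t ^ 2 = 1
        have := Real.sin_sq_add_cos_sq t
        linarith
      exact ⟨⟨h, le_refl _⟩, ⟨h, le_refl _⟩⟩
  rw [h]
  refine isPreconnected_univ.image _ (Continuous.continuousOn ?_)
  refine continuous_pi fun i => ?_
  fin_cases i <;> simp <;> fun_prop

private theorem log_sph : HasLog Sph := by
  rw [← sph_union]
  exact HasLog.union log_sphP log_sphN isClosed_sphP isClosed_sphN conn_inter ⟨_, inter_mem⟩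

private theorem conn_sph : IsPreconnected Sph := by
  rw [← sph_union]
  exact IsPreconnected.union _ inter_mem.1 inter_mem.2 conn_sphP conn_sphN

/-! ### The deformation retraction of the Milnor fibre -/

private noncomputable def A2 (c : ℂ) (z : Fin 3 → ℂ) : ℝ := ∑ i, (z i / c).re ^ 2
private noncomputable def B2 (c : ℂ) (z : Fin 3 → ℂ) : ℝ := ∑ i, (z i / c).im ^ 2

private noncomputable def Hm (c : ℂ) (z : Fin 3 → ℂ) (s : ℝ) : Fin 3 → ℂ := fun i =>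
  c * (((√((1 + s ^ 2 * B2 c z) / A2 c z) * (z i / c).re : ℝ) : ℂ) +
    ((s * (z i / c).im : ℝ) : ℂ) * Complex.I)

private noncomputable def phi (c : ℂ) (z : Fin 3 → ℂ) : Fin 3 → ℝ := fun i =>
  √(1 / A2 c z) * (z i / c).re

private noncomputable def psi (c : ℂ) (a : Fin 3 → ℝ) : Fin 3 → ℂ := fun i => c * (a i : ℂ)

private theorem key_eqs {c w : ℂ} {d : ℝ} (hc : c ≠ 0) (hcw : c ^ 2 = w) {z : Fin 3 → ℂ}
    (hz : z ∈ Mil w d) : A2 c z - B2 c z = 1 ∧ ∑ i, (z i / c).re * (z i / c).im = 0 := by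
  have h1 : ∑ i, (z i / c) ^ 2 = 1 := by
    have h2 : qf z = w := hz.1
    unfold qf at h2
    have h3 : ∑ i, (z i / c) ^ 2 = (∑ i, z i ^ 2) / c ^ 2 := by
      rw [Finset.sum_div]
      exact Finset.sum_congr rfl fun i _ => by rw [div_pow]
    rw [h3, h2, hcw]
    exact div_self (by rw [← hcw]; exact pow_ne_zero 2 hc)
  have hre := congrArg Complex.re h1
  have him := congrArg Complex.im h1
  rw [Complex.re_sum] at hre
  rw [Complex.im_sum] at him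
  have e1 : ∀ u : ℂ, (u ^ 2).re = u.re ^ 2 - u.im ^ 2 := by
    intro u; rw [pow_two, Complex.mul_re]; ring
  have e2 : ∀ u : ℂ, (u ^ 2).im = 2 * (u.re * u.im) := by
    intro u; rw [pow_two, Complex.mul_im]; ring
  simp only [e1, e2, Complex.one_re, Complex.one_im] at hre him
  refine ⟨?_, ?_⟩
  · unfold A2 B2
    rw [← Finset.sum_sub_distrib]
    exact hre
  · rw [← Finset.mul_sum] at him
    linarith

private theorem B2_nonneg (c : ℂ) (z : Fin 3 → ℂ) : 0 ≤ B2 c z :=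
  Finset.sum_nonneg fun _ _ => sq_nonneg _

private theorem N2_eq (c : ℂ) (x y : Fin 3 → ℝ) :
    N2 (fun i => c * ((x i : ℂ) + (y i : ℂ) * Complex.I)) =
      ‖c‖ ^ 2 * (∑ i, x i ^ 2 + ∑ i, y i ^ 2) := by
  unfold N2
  rw [← Finset.sum_add_distrib, Finset.mul_sum]
  refine Finset.sum_congr rfl fun i _ => ?_
  rw [norm_mul, mul_pow]
  congr 1
  rw [← Complex.normSq_eq_norm_sq, Complex.normSq_apply]
  simp
  ring

private theorem qf_eq (c : ℂ) (x y : Fin 3 → ℝ) :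
    qf (fun i => c * ((x i : ℂ) + (y i : ℂ) * Complex.I)) =
      c ^ 2 * (((∑ i, x i ^ 2 - ∑ i, y i ^ 2 : ℝ) : ℂ) +
        2 * ((∑ i, x i * y i : ℝ) : ℂ) * Complex.I) := by
  unfold qf
  simp only [Fin.sum_univ_three]
  push_cast
  linear_combination (c ^ 2 * ((y 0 : ℂ) ^ 2 + (y 1 : ℂ) ^ 2 + (y 2 : ℂ) ^ 2)) * Complex.I_sq

private theorem eq_self {c : ℂ} (hc : c ≠ 0) (z : Fin 3 → ℂ) :
    z = fun i => c * (((z i / c).re : ℂ) + ((z i / c).im : ℂ) * Complex.I) := by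
  funext i
  rw [Complex.re_add_im, mul_div_cancel₀ _ hc]

private theorem N2_self {c : ℂ} (hc : c ≠ 0) (z : Fin 3 → ℂ) :
    N2 z = ‖c‖ ^ 2 * (A2 c z + B2 c z) := by
  conv_lhs => rw [eq_self hc z]
  exact N2_eq c _ _

private theorem Hm_mem {c w : ℂ} {d : ℝ} (hc : c ≠ 0) (hcw : c ^ 2 = w) {z : Fin 3 → ℂ}
    (hz : z ∈ Mil w d) {s : ℝ} (hs : s ∈ Icc (0 : ℝ) 1) : Hm c z s ∈ Mil w d := by
  obtain ⟨h1, h2⟩ := key_eqs hc hcw hz
  have hB := B2_nonneg c z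
  have hA : 0 < A2 c z := by linarith
  have hs2 : s ^ 2 ≤ 1 := pow_le_one₀ hs.1 hs.2
  have hs0 : 0 ≤ s ^ 2 := sq_nonneg s
  have hq : 0 ≤ (1 + s ^ 2 * B2 c z) / A2 c z := by positivity
  have e1 : ∑ i, (√((1 + s ^ 2 * B2 c z) / A2 c z) * (z i / c).re) ^ 2 = 1 + s ^ 2 * B2 c z := by
    have : ∀ i, (√((1 + s ^ 2 * B2 c z) / A2 c z) * (z i / c).re) ^ 2
        = (1 + s ^ 2 * B2 c z) / A2 c z * (z i / c).re ^ 2 := by
      intro i; rw [mul_pow, Real.sq_sqrt hq]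
    simp only [this]
    rw [← Finset.mul_sum]
    show (1 + s ^ 2 * B2 c z) / A2 c z * A2 c z = _
    exact div_mul_cancel₀ _ hA.ne'
  have e2 : ∑ i, (s * (z i / c).im) ^ 2 = s ^ 2 * B2 c z := by
    simp only [mul_pow]
    rw [← Finset.mul_sum]
    rfl
  have e3 : ∑ i, (√((1 + s ^ 2 * B2 c z) / A2 c z) * (z i / c).re) * (s * (z i / c).im) = 0 := by
    have : ∀ i, (√((1 + s ^ 2 * B2 c z) / A2 c z) * (z i / c).re) * (s * (z i / c).im)
        = (√((1 + s ^ 2 * B2 c z) / A2 c z) * s) * ((z i / c).re * (z i / c).im) := by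
      intro i; ring
    simp only [this]
    rw [← Finset.mul_sum, h2, mul_zero]
  constructor
  · show qf (Hm c z s) = w
    have := qf_eq c (fun i => √((1 + s ^ 2 * B2 c z) / A2 c z) * (z i / c).re)
      (fun i => s * (z i / c).im)
    rw [e1, e2, e3] at this
    refine this.trans ?_
    rw [hcw]
    push_cast
    ring
  · show N2 (Hm c z s) ≤ d
    have := N2_eq c (fun i => √((1 + s ^ 2 * B2 c z) / A2 c z) * (z i / c).re)
      (fun i => s * (z i / c).im)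
    rw [e1, e2] at this
    have h3 : N2 (Hm c z s) = ‖c‖ ^ 2 * (1 + s ^ 2 * B2 c z + s ^ 2 * B2 c z) := this
    rw [h3]
    refine le_trans ?_ hz.2
    rw [N2_self hc z]
    apply mul_le_mul_of_nonneg_left _ (sq_nonneg _)
    nlinarith

private theorem Hm_zero {c : ℂ} {z : Fin 3 → ℂ} : Hm c z 0 = psi c (phi c z) := by
  funext i
  unfold Hm psi phi
  simp

private theorem Hm_one {c w : ℂ} {d : ℝ} (hc : c ≠ 0) (hcw : c ^ 2 = w) {z : Fin 3 → ℂ}
    (hz : z ∈ Mil w d) : Hm c z 1 = z := by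
  obtain ⟨h1, h2⟩ := key_eqs hc hcw hz
  have hB := B2_nonneg c z
  have hA : 0 < A2 c z := by linarith
  have h3 : (1 + (1 : ℝ) ^ 2 * B2 c z) / A2 c z = 1 := by
    rw [div_eq_one_iff_eq hA.ne']; linarith
  conv_rhs => rw [eq_self hc z]
  funext i
  unfold Hm
  rw [h3]
  simp

private theorem A2_cont (c : ℂ) : Continuous (A2 c) := by
  unfold A2
  simp only [div_eq_mul_inv]
  fun_prop

private theorem B2_cont (c : ℂ) : Continuous (B2 c) := by
  unfold B2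
  simp only [div_eq_mul_inv]
  fun_prop

private theorem re_cont (c : ℂ) (i : Fin 3) : Continuous (fun z : Fin 3 → ℂ => (z i / c).re) := by
  simp only [div_eq_mul_inv]
  fun_prop

private theorem im_cont (c : ℂ) (i : Fin 3) : Continuous (fun z : Fin 3 → ℂ => (z i / c).im) := by
  simp only [div_eq_mul_inv]
  fun_prop

private theorem Hm_cont {c w : ℂ} {d : ℝ} (hc : c ≠ 0) (hcw : c ^ 2 = w) :
    ContinuousOn (fun p : (Fin 3 → ℂ) × ℝ => Hm c p.1 p.2) (Mil w d ×ˢ Icc (0 : ℝ) 1) := by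
  have hA : ∀ p ∈ Mil w d ×ˢ Icc (0 : ℝ) 1, A2 c p.1 ≠ 0 := by
    intro p hp
    have := (key_eqs hc hcw hp.1).1
    have h2 := B2_nonneg c p.1
    intro h
    linarith
  have cA : ContinuousOn (fun p : (Fin 3 → ℂ) × ℝ => A2 c p.1) (Mil w d ×ˢ Icc (0 : ℝ) 1) :=
    ((A2_cont c).comp continuous_fst).continuousOn
  have cB : ContinuousOn (fun p : (Fin 3 → ℂ) × ℝ => B2 c p.1) (Mil w d ×ˢ Icc (0 : ℝ) 1) :=
    ((B2_cont c).comp continuous_fst).continuousOn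
  have cs : ContinuousOn (fun p : (Fin 3 → ℂ) × ℝ => p.2) (Mil w d ×ˢ Icc (0 : ℝ) 1) :=
    continuous_snd.continuousOn
  have c1 : ContinuousOn (fun p : (Fin 3 → ℂ) × ℝ => √((1 + p.2 ^ 2 * B2 c p.1) / A2 c p.1))
      (Mil w d ×ˢ Icc (0 : ℝ) 1) :=
    Real.continuous_sqrt.comp_continuousOn
      ((continuousOn_const.add ((cs.pow 2).mul cB)).div cA hA)
  refine continuousOn_pi.mpr fun i => ?_
  have c2 : ContinuousOn (fun p : (Fin 3 → ℂ) × ℝ => (p.1 i / c).re) (Mil w d ×ˢ Icc (0 : ℝ) 1) :=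
    ((re_cont c i).comp continuous_fst).continuousOn
  have c3 : ContinuousOn (fun p : (Fin 3 → ℂ) × ℝ => (p.1 i / c).im) (Mil w d ×ˢ Icc (0 : ℝ) 1) :=
    ((im_cont c i).comp continuous_fst).continuousOn
  exact continuousOn_const.mul ((Complex.continuous_ofReal.comp_continuousOn (c1.mul c2)).add
    ((Complex.continuous_ofReal.comp_continuousOn (cs.mul c3)).mul continuousOn_const))

private theorem phi_cont {c w : ℂ} {d : ℝ} (hc : c ≠ 0) (hcw : c ^ 2 = w) :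
    ContinuousOn (phi c) (Mil w d) := by
  have hA : ∀ z ∈ Mil w d, A2 c z ≠ 0 := by
    intro p hp
    have := (key_eqs hc hcw hp).1
    have h2 := B2_nonneg c p
    intro h
    linarith
  refine continuousOn_pi.mpr fun i => ?_
  exact (Real.continuous_sqrt.comp_continuousOn
    (continuousOn_const.div (A2_cont c).continuousOn hA)).mul (re_cont c i).continuousOn

private theorem phi_mem {c w : ℂ} {d : ℝ} (hc : c ≠ 0) (hcw : c ^ 2 = w) {z : Fin 3 → ℂ}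
    (hz : z ∈ Mil w d) : phi c z ∈ Sph := by
  obtain ⟨h1, h2⟩ := key_eqs hc hcw hz
  have hB := B2_nonneg c z
  have hA : 0 < A2 c z := by linarith
  have h3 : 0 ≤ 1 / A2 c z := by positivity
  show (√(1 / A2 c z) * (z 0 / c).re) ^ 2 + (√(1 / A2 c z) * (z 1 / c).re) ^ 2 +
    (√(1 / A2 c z) * (z 2 / c).re) ^ 2 = 1
  rw [mul_pow, mul_pow, mul_pow, Real.sq_sqrt h3]
  have h4 : A2 c z = (z 0 / c).re ^ 2 + (z 1 / c).re ^ 2 + (z 2 / c).re ^ 2 := by
    unfold A2; rw [Fin.sum_univ_three]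
  rw [← mul_add, ← mul_add, ← h4]
  exact one_div_mul_cancel hA.ne'

private theorem psi_cont (c : ℂ) : Continuous (psi c) := by
  unfold psi
  fun_prop

private theorem psi_mem {c w : ℂ} {d : ℝ} (hcw : c ^ 2 = w) (hd : ‖w‖ ≤ d) {a : Fin 3 → ℝ}
    (ha : a ∈ Sph) : psi c a ∈ Mil w d := by
  have ha' : a 0 ^ 2 + a 1 ^ 2 + a 2 ^ 2 = 1 := ha
  have e1 : psi c a = fun i => c * ((a i : ℂ) + ((fun _ : Fin 3 => (0 : ℝ)) i : ℂ) * Complex.I) := by
    funext i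
    unfold psi
    simp
  have e2 : ∑ i, a i ^ 2 = 1 := by rw [Fin.sum_univ_three]; exact ha'
  constructor
  · show qf (psi c a) = w
    rw [e1, qf_eq, e2, hcw]
    simp
  · show N2 (psi c a) ≤ d
    rw [e1, N2_eq, e2]
    have : ‖c‖ ^ 2 = ‖w‖ := by rw [← hcw, norm_pow]
    rw [this]
    simpa using hd

theorem mil_conn {w : ℂ} {d : ℝ} (h : ‖w‖ < d) : IsPreconnected (Mil w d) := by
  by_cases hw : w = 0
  · have := star_conn (S := {(0 : ℂ)}) (convex_singleton 0) (mem_singleton _) d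
    rw [hw]
    exact this
  obtain ⟨c, hcw⟩ := IsAlgClosed.exists_pow_nat_eq w (n := 2) (by norm_num)
  have hc : c ≠ 0 := by
    rintro rfl
    exact hw (by rw [← hcw]; simp)
  obtain ⟨z₀, hz₀⟩ : (Mil w d).Nonempty := mil_nonempty h.le
  have hpsi : IsPreconnected (psi c '' Sph) := conn_sph.image _ (psi_cont c).continuousOn
  have hsub : psi c '' Sph ⊆ Mil w d := by
    rintro _ ⟨a, ha, rfl⟩
    exact psi_mem hcw h.le ha
  have hp0 : psi c (phi c z₀) ∈ psi c '' Sph := ⟨_, phi_mem hc hcw hz₀, rfl⟩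
  refine isPreconnected_of_forall (psi c (phi c z₀)) fun y hy => ?_
  have hy0 : psi c (phi c y) ∈ psi c '' Sph := ⟨_, phi_mem hc hcw hy, rfl⟩
  have hpath : IsPreconnected (Hm c y '' Icc (0 : ℝ) 1) := by
    refine isPreconnected_Icc.image _ ?_
    have h1 : ContinuousOn (fun s : ℝ => (y, s)) (Icc (0 : ℝ) 1) := by fun_prop
    have h2 : MapsTo (fun s : ℝ => (y, s)) (Icc (0 : ℝ) 1) (Mil w d ×ˢ Icc (0 : ℝ) 1) :=
      fun s hs => ⟨hy, hs⟩
    exact ContinuousOn.comp (f := fun s : ℝ => (y, s)) (Hm_cont (d := d) hc hcw) h1 h2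
  refine ⟨psi c '' Sph ∪ Hm c y '' Icc (0 : ℝ) 1, ?_, Or.inl hp0, Or.inr ⟨1, ⟨zero_le_one, le_refl _⟩,
    Hm_one hc hcw hy⟩, ?_⟩
  · rintro x (hx | ⟨s, hs, rfl⟩)
    · exact hsub hx
    · exact Hm_mem hc hcw hy hs
  · exact IsPreconnected.union _ hy0 ⟨0, ⟨le_refl _, zero_le_one⟩, Hm_zero⟩ hpsi hpath

theorem mil_log {w : ℂ} {d : ℝ} (h : ‖w‖ < d) : HasLog (Mil w d) := by
  by_cases hw : w = 0
  · have := star_log (S := {(0 : ℂ)}) (convex_singleton 0) (mem_singleton _) d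
    rw [hw]
    exact this
  obtain ⟨c, hcw⟩ := IsAlgClosed.exists_pow_nat_eq w (n := 2) (by norm_num)
  have hc : c ≠ 0 := by
    rintro rfl
    exact hw (by rw [← hcw]; simp)
  intro A hA hA0
  obtain ⟨g, hg, hge⟩ := log_sph (fun a => A (psi c a))
    (hA.comp (psi_cont c).continuousOn fun a ha => psi_mem hcw h.le ha)
    (fun a ha => hA0 _ (psi_mem hcw h.le ha))
  obtain ⟨f, hf, hfe, hf0⟩ := log_homotopyOn (Mil w d) (fun z s => A (Hm c z s))
    (hA.comp (Hm_cont hc hcw) fun p hp => Hm_mem hc hcw hp.1 hp.2)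
    (fun z hz s hs => hA0 _ (Hm_mem hc hcw hz hs))
    (fun z => g (phi c z)) (hg.comp (phi_cont hc hcw) fun z hz => phi_mem hc hcw hz)
    (fun z hz => by
      rw [hge _ (phi_mem hc hcw hz), Hm_zero])
  refine ⟨fun z => f z 1, ?_, fun z hz => ?_⟩
  · have h1 : ContinuousOn (fun z : Fin 3 → ℂ => (z, (1 : ℝ))) (Mil w d) := by fun_prop
    have h2 : MapsTo (fun z : Fin 3 → ℂ => (z, (1 : ℝ))) (Mil w d) (Mil w d ×ˢ Icc (0 : ℝ) 1) :=
      fun z hz => ⟨hz, zero_le_one, le_refl _⟩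
    exact ContinuousOn.comp (f := fun z : Fin 3 → ℂ => (z, (1 : ℝ))) hf h1 h2
  · rw [hfe z hz 1 ⟨zero_le_one, le_refl _⟩, Hm_one hc hcw hz]

end Pool.Agent.LF
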