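import Pool.Agent.LF.Mg_MP_639418_gt.G005

/-! # Task VolC: positivity of `h6 + l v^2` -/

open Set Filter Topology
open scoped ContDiff

namespace Pool.Agent.LF

private theorem h6_cont : Continuous h6 := by
  unfold h6 m6
  fun_prop

/-- `h6 + l v^2 > 0` on `B` for `l` large -/
theorem VolSet.exists_l {p : E6 → ℂ} (hL : IsLefschetz X6 p) {R₀ R : ℝ} (hb : Big p R₀)
    (hR : R₀ < R) {B : Set E6} (hB : VolSet p R B) :
    ∃ l : ℝ, 0 ≤ l ∧ ∀ x ∈ B, 0 < h6 x + l * x 5 ^ 2 := by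
  by_contra hcon
  push Not at hcon
  obtain ⟨K, hKU, hKc, hrep⟩ := hB.bdd
  -- a sequence in `K ∩ B`
  have hseq : ∀ n : ℕ, ∃ x, x ∈ K ∧ x ∈ B ∧ h6 x + n * x 5 ^ 2 ≤ 0 := by
    intro n
    obtain ⟨x, hxB, hx⟩ := hcon n (Nat.cast_nonneg n)
    obtain ⟨g, hg, hgx⟩ := hrep x hxB
    refine ⟨g x, hgx, (hB.inv g hg x (hB.sub x hxB).1).2 hxB, ?_⟩
    have h5 : g x 5 = x 5 := congrArg Complex.im (kap_G6 g hg x)
    rw [h_G6 g hg x, h5]
    exact hx
  choose y hyK hyB hy using hseq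
  obtain ⟨x, hxK, φ, hφ, hlim⟩ := hKc.tendsto_subseq hyK
  have hxU : x ∈ U6 := hKU hxK
  have hxB : x ∈ closure B := mem_closure_of_tendsto hlim (Eventually.of_forall fun n => hyB _)
  obtain ⟨hpx, -, -⟩ := hB.limit hL hb hR hxU hxB
  have hR0 : 0 < R := hb.pos.trans hR
  have hnorm : R₀ ≤ ‖p x‖ := by
    rw [hpx, Complex.norm_real, Real.norm_eq_abs, abs_of_pos hR0]
    exact hR.le
  -- `h6 x ≤ 0`
  have hh : ∀ n, h6 (y n) ≤ 0 := by
    intro n
    have : (0 : ℝ) ≤ n * y n 5 ^ 2 := by positivity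
    linarith [hy n]
  have hhx : h6 x ≤ 0 :=
    le_of_tendsto ((h6_cont.tendsto x).comp hlim) (Eventually.of_forall fun n => hh _)
  -- `x 5 = 0`
  obtain ⟨c, hc⟩ := hKc.exists_bound_of_continuousOn (f := h6) h6_cont.continuousOn
  have h5 : x 5 = 0 := by
    have hbound : ∀ n : ℕ, 1 ≤ n → y (φ n) 5 ^ 2 ≤ c / n := by
      intro n h0
      have h1 := hy (φ n)
      have h2 := hc _ (hyK (φ n))
      rw [Real.norm_eq_abs] at h2
      have h3 := (abs_le.1 h2).1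
      have h4 : (n : ℝ) ≤ φ n := by exact_mod_cast hφ.id_le n
      have h6' : (0 : ℝ) ≤ y (φ n) 5 ^ 2 := sq_nonneg _
      have h7 : (n : ℝ) * y (φ n) 5 ^ 2 ≤ c := by
        have := mul_le_mul_of_nonneg_right h4 h6'
        linarith
      have hn : (0 : ℝ) < n := by exact_mod_cast h0
      rw [le_div_iff₀ hn]
      linarith
    have hcont : Continuous fun z : E6 => z 5 ^ 2 := by fun_prop
    have h1 : Tendsto (fun n => y (φ n) 5 ^ 2) atTop (𝓝 (x 5 ^ 2)) := (hcont.tendsto x).comp hlim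
    have h2 : x 5 ^ 2 ≤ 0 := le_of_tendsto_of_tendsto h1 (tendsto_const_div_atTop_nhds_zero_nat c)
      ((eventually_ge_atTop 1).mono hbound)
    nlinarith [sq_nonneg (x 5)]
  have h4 : x 4 ≠ 0 := by
    intro h4
    have hrho := hb.skel x hxU hnorm
    have hm : m6 x = 0 := by
      have : m6 x ^ 2 ≤ 0 := by
        have := hhx
        unfold h6 at this
        rw [h4] at this
        simpa using this
      nlinarith [sq_nonneg (m6 x)]
    unfold rho6 at hrho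
    rw [hm, h4, h5] at hrho
    simp at hrho
  have hxC : x ∈ C6 := ⟨hxU, h4, h5, hhx⟩
  obtain ⟨O, hO, hOC⟩ := near_C hL.smooth hb hR hxC hpx
  obtain ⟨n, hn⟩ := (hlim.eventually hO).exists
  exact (hB.sub _ (hyB (φ n))).2.2 (hOC _ hn (hB.sub _ (hyB (φ n))).2.1 (hh _))

end Pool.Agent.LF
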