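import Pool.Agent.LF.Mg_MP_639418_gt.G005

/-! # Task VolD: constants of the cut-off function -/

open Set Filter Topology
open scoped ContDiff

namespace Pool.Agent.LF

private theorem uu_smooth (l : ℝ) : ContDiff ℝ ∞ (fun y : E6 => h6 y + l * y 5 ^ 2) := by
  unfold h6 m6
  fun_prop

private theorem uu_G (l : ℝ) {g : E6 → E6} (hg : g ∈ G6) (x : E6) :
    h6 (g x) + l * g x 5 ^ 2 = h6 x + l * x 5 ^ 2 := by
  rw [h_G6 g hg]
  obtain ⟨k, a, b, rfl⟩ := hg
  rfl

private theorem DD_G {p : E6 → ℂ} (hp : ContDiffOn ℝ ∞ p U6)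
    (hG : ∀ g ∈ G6, ∀ x ∈ U6, p (g x) = p x) (l : ℝ) {g : E6 → E6} (hg : g ∈ G6) {x : E6}
    (hx : x ∈ U6) :
    BB p (g x) * fderiv ℝ (fun y : E6 => h6 y + l * y 5 ^ 2) (g x) (NN p (g x)) =
      BB p x * fderiv ℝ (fun y : E6 => h6 y + l * y 5 ^ 2) x (NN p x) := by
  rw [BB_G hp hG hg hx, NN_G hp hG hg hx]
  have h1 : (fun y : E6 => h6 y + l * y 5 ^ 2) ∘ g = fun y : E6 => h6 y + l * y 5 ^ 2 := by
    funext y
    exact uu_G l hg y
  have h2 : fderiv ℝ ((fun y : E6 => h6 y + l * y 5 ^ 2) ∘ g) x =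
      (fderiv ℝ (fun y : E6 => h6 y + l * y 5 ^ 2) (g x)).comp (fderiv ℝ g x) :=
    fderiv_comp x ((uu_smooth l).differentiable (by simp) _)
      ((smooth6 g hg).differentiable (by simp) _)
  rw [h1] at h2
  rw [h2]
  rfl

private theorem DD_cont {p : E6 → ℂ} (hp : ContDiffOn ℝ ∞ p U6) (l : ℝ) :
    ContinuousOn (fun x => BB p x *
      fderiv ℝ (fun y : E6 => h6 y + l * y 5 ^ 2) x (NN p x)) U6 :=
  (BB_cont hp).continuousOn.mul
    ((((uu_smooth l).continuous_fderiv (by simp)).continuousOn).clm_apply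
      (NN_cont hp).continuousOn)

/-- the part of `C6` over `R` is closed in `U6` -/
private theorem C_closed {p : E6 → ℂ} (hp : ContDiffOn ℝ ∞ p U6) {R₀ R : ℝ} (hb : Big p R₀)
    (hR : R₀ < R) {y : E6} (hy : y ∈ U6) (hpy : p y = R) (hc : y ∈ closure C6) : y ∈ C6 := by
  have h5 : y 5 = 0 := by
    have hcl : IsClosed {x : E6 | x 5 = 0} := isClosed_eq (continuous_apply 5) continuous_const
    exact closure_minimal (fun x hx => hx.2.2.1) hcl hc
  have hh : h6 y ≤ 0 := by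
    have hcl : IsClosed {x : E6 | h6 x ≤ 0} := by
      refine isClosed_le ?_ continuous_const
      unfold h6 m6
      fun_prop
    exact closure_minimal (fun x hx => hx.2.2.2) hcl hc
  refine ⟨hy, ?_, h5, hh⟩
  intro h4
  have hR0 : 0 < R := hb.pos.trans hR
  have hn : R₀ ≤ ‖p y‖ := by
    rw [hpy, Complex.norm_real, Real.norm_of_nonneg hR0.le]; exact hR.le
  have hr := hb.skel y hy hn
  unfold h6 at hh
  unfold rho6 at hr
  rw [h4] at hh hr
  rw [h5] at hr
  simp at hh hr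
  rw [hh] at hr
  simp at hr

/-- the constants of the cut-off function -/
theorem VolSet.exists_cut {p : E6 → ℂ} (hL : IsLefschetz X6 p) {R₀ R : ℝ} (hb : Big p R₀)
    (hR : R₀ < R) {e : ℝ} {T : E6 → ℂ → E6} (hT : Ret p R e T) {B : Set E6}
    (hB : VolSet p R B) {l : ℝ} (hl : 0 ≤ l) (hlB : ∀ x ∈ B, 0 < h6 x + l * x 5 ^ 2)
    {x₀ : E6} (hx₀ : x₀ ∈ B) :
    ∃ t e' : ℝ, 0 < t ∧ t < h6 x₀ + l * x₀ 5 ^ 2 ∧ 0 < e' ∧ e' ≤ e ∧
      ∀ x ∈ Fib U6 p (Metric.closedBall (R : ℂ) e'), T x R ∈ closure B →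
        BB p x ≠ 0 ∧
        (h6 x + l * x 5 ^ 2 ≤ t →
          0 < BB p x * fderiv ℝ (fun y : E6 => h6 y + l * y 5 ^ 2) x (NN p x)) ∧
        (T x R ∈ C6 → h6 x + l * x 5 ^ 2 < t / 2) := by
  have hp : ContDiffOn ℝ ∞ p U6 := hL.smooth
  have hG : ∀ g ∈ G6, ∀ x ∈ U6, p (g x) = p x := hL.inv
  have hucont : Continuous (fun y : E6 => h6 y + l * y 5 ^ 2) := (uu_smooth l).continuous
  have hR0 : 0 < R := hb.pos.trans hR
  have hnR : ∀ x : E6, p x = R → R₀ ≤ ‖p x‖ := by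
    intro x hx
    rw [hx, Complex.norm_real, Real.norm_of_nonneg hR0.le]; exact hR.le
  have hBg : ∀ g ∈ G6, ∀ x, x ∈ closure B → g x ∈ closure B := by
    intro g hg x hx
    have h1 : MapsTo g B B := fun y hy => (hB.inv g hg y (hB.sub y hy).1).2 hy
    exact h1.closure (smooth6 g hg).continuous hx
  -- the value at the points over `R`
  have hlim : ∀ x ∈ U6, x ∈ closure B →
      (h6 x + l * x 5 ^ 2 ≤ 0 → 0 < BB p x *
        fderiv ℝ (fun y : E6 => h6 y + l * y 5 ^ 2) x (NN p x)) := by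
    intro x hx hxB hu
    obtain ⟨h1, h2, h3⟩ := hB.limit hL hb hR hx hxB
    have h4 : x ∉ B := fun h => absurd (hlB x h) (not_lt.2 hu)
    exact (VolSet.deriv_pos hL hb hR (l := l) (h2 h4) h1 (h3 (h2 h4))).2
  -- step 1: the constant `t1`
  obtain ⟨t1, ht1, ht1'⟩ : ∃ t1 : ℝ, 0 < t1 ∧ ∀ x ∈ U6, x ∈ closure B →
      h6 x + l * x 5 ^ 2 ≤ t1 → 0 < BB p x *
        fderiv ℝ (fun y : E6 => h6 y + l * y 5 ^ 2) x (NN p x) := by
    obtain ⟨K, hKS, hK, hKg⟩ := compact_rep (S := {x | x ∈ U6 ∧ x ∈ closure B ∧ BB p x *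
        fderiv ℝ (fun y : E6 => h6 y + l * y 5 ^ 2) x (NN p x) ≤ 0}) (fun x hx => hx.1)
      (by
        intro x hx hxc
        refine ⟨hx, ?_, ?_⟩
        · have := closure_mono (t := closure B) (fun y hy => hy.2.1) hxc
          rwa [closure_closure] at this
        · have hca : ContinuousAt (fun x => BB p x *
              fderiv ℝ (fun y : E6 => h6 y + l * y 5 ^ 2) x (NN p x)) x :=
            (DD_cont hp l).continuousAt (isOpen_U6.mem_nhds hx)
          have h1 := hca.continuousWithinAt.mem_closure_image hxc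
          refine closure_minimal ?_ isClosed_Iic h1
          rintro _ ⟨y, hy, rfl⟩
          exact hy.2.2)
      (by
        intro g hg x hx
        refine ⟨maps6 g hg x hx.1, hBg g hg x hx.2.1, ?_⟩
        rw [DD_G hp hG l hg hx.1]
        exact hx.2.2)
      (bdd_mono (bdd_closure hB.bdd) fun x hx => ⟨hx.1, hx.2.1⟩)
    have hpos : ∀ x ∈ K, 0 < h6 x + l * x 5 ^ 2 := by
      intro x hx
      by_contra h
      exact absurd (hlim x (hKS hx).1 (hKS hx).2.1 (not_lt.1 h)) (not_lt.2 (hKS hx).2.2)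
    rcases K.eq_empty_or_nonempty with hE | hne
    · refine ⟨1, one_pos, fun x hx hxB _ => ?_⟩
      by_contra h
      obtain ⟨g, _, hg⟩ := hKg x ⟨hx, hxB, not_lt.1 h⟩
      simp [hE] at hg
    · obtain ⟨x1, hx1, hmin⟩ := hK.exists_isMinOn hne hucont.continuousOn
      refine ⟨(h6 x1 + l * x1 5 ^ 2) / 2, half_pos (hpos x1 hx1), fun x hx hxB hu => ?_⟩
      by_contra h
      obtain ⟨g, hg, hgx⟩ := hKg x ⟨hx, hxB, not_lt.1 h⟩
      have h1 : h6 x1 + l * x1 5 ^ 2 ≤ h6 (g x) + l * g x 5 ^ 2 := hmin hgx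
      rw [uu_G l hg] at h1
      have := hpos x1 hx1
      linarith
  have hux₀ := hlB x₀ hx₀
  set t : ℝ := min t1 ((h6 x₀ + l * x₀ 5 ^ 2) / 2) with ht
  have htpos : 0 < t := lt_min ht1 (half_pos hux₀)
  have htx : t < h6 x₀ + l * x₀ 5 ^ 2 := lt_of_le_of_lt (min_le_right _ _) (by linarith)
  have htt : t ≤ t1 := min_le_left _ _
  -- the set `S`
  have hSclosed : ∀ x ∈ U6, x ∈ closure {x | x ∈ Fib U6 p (Metric.closedBall (R : ℂ) e) ∧
      T x R ∈ closure B} → x ∈ Fib U6 p (Metric.closedBall (R : ℂ) e) ∧ T x R ∈ closure B ∧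
      T x R ∈ closure ((fun y => T y R) '' {x | x ∈ Fib U6 p (Metric.closedBall (R : ℂ) e) ∧
      T x R ∈ closure B}) := by
    intro x hx hxc
    have hpx : ContinuousAt p x := hp.continuousOn.continuousAt (isOpen_U6.mem_nhds hx)
    have h1 : x ∈ Fib U6 p (Metric.closedBall (R : ℂ) e) := by
      refine ⟨hx, ?_⟩
      have h2 := hpx.continuousWithinAt.mem_closure_image hxc
      refine closure_minimal ?_ Metric.isClosed_closedBall h2
      rintro _ ⟨y, hy, rfl⟩
      exact hy.1.2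
    have hTc : ContinuousWithinAt (fun y => T y R)
        {x | x ∈ Fib U6 p (Metric.closedBall (R : ℂ) e) ∧ T x R ∈ closure B} x := by
      have h2 : ContinuousOn (fun y => T y R) (Fib U6 p (Metric.closedBall (R : ℂ) e)) := by
        have h3 := hT.cont.comp (f := fun y : E6 => (y, (R : ℂ)))
          (s := Fib U6 p (Metric.closedBall (R : ℂ) e)) (by fun_prop)
          (fun y hy => ⟨hy, Metric.mem_closedBall_self hT.e_pos.le⟩)
        exact h3
      exact (h2 x h1).mono fun y hy => hy.1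
    have h4 := hTc.mem_closure_image hxc
    refine ⟨h1, ?_, h4⟩
    have h5 := closure_mono (t := closure B) ?_ h4
    · rwa [closure_closure] at h5
    · rintro _ ⟨y, hy, rfl⟩
      exact hy.2
  have hSG : ∀ g ∈ G6, ∀ x, x ∈ Fib U6 p (Metric.closedBall (R : ℂ) e) ∧ T x R ∈ closure B →
      g x ∈ Fib U6 p (Metric.closedBall (R : ℂ) e) ∧ T (g x) R ∈ closure B := by
    intro g hg x hx
    refine ⟨⟨maps6 g hg x hx.1.1, ?_⟩, ?_⟩
    · rw [hG g hg x hx.1.1]; exact hx.1.2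
    · rw [hT.equiv x hx.1 R (Metric.mem_closedBall_self hT.e_pos.le) g hg]
      exact hBg g hg _ hx.2
  have hSb : Q6.Bdd {x | x ∈ Fib U6 p (Metric.closedBall (R : ℂ) e) ∧ T x R ∈ closure B} := by
    refine bdd_mono (hT.bdd _ (bdd_closure hB.bdd)) fun x hx => ⟨hx.1, ?_, hx.2⟩
    exact (hT.mem x hx.1 R (Metric.mem_closedBall_self hT.e_pos.le)).1
  have hTself : ∀ x, x ∈ Fib U6 p (Metric.closedBall (R : ℂ) e) → p x = R → T x R = x := by
    intro x hx hpx
    have := hT.self x hx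
    rwa [hpx] at this
  -- the first application of `shrink`
  obtain ⟨e1, he1, hs1⟩ := shrink
    (S := {x | x ∈ Fib U6 p (Metric.closedBall (R : ℂ) e) ∧ T x R ∈ closure B})
    (fun x hx => hx.1.1) (fun x hx hxc => ⟨(hSclosed x hx hxc).1, (hSclosed x hx hxc).2.1⟩)
    (fun g hg x hx => hSG g hg x hx) hSb hp.continuousOn hG (z := (R : ℂ))
    (O := {x | x ∈ U6 ∧ BB p x ≠ 0 ∧ (h6 x + l * x 5 ^ 2 ≤ t → 0 < BB p x *
        fderiv ℝ (fun y : E6 => h6 y + l * y 5 ^ 2) x (NN p x))})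
    (by
      rw [isOpen_iff_mem_nhds]
      rintro x ⟨hx, hx1, hx2⟩
      have hU := isOpen_U6.mem_nhds hx
      have hB1 : ∀ᶠ y in 𝓝 x, BB p y ≠ 0 :=
        ((BB_cont hp).continuousOn.continuousAt hU).eventually_ne hx1
      have hD1 : ∀ᶠ y in 𝓝 x, (h6 y + l * y 5 ^ 2 ≤ t → 0 < BB p y *
          fderiv ℝ (fun y : E6 => h6 y + l * y 5 ^ 2) y (NN p y)) := by
        by_cases hu : h6 x + l * x 5 ^ 2 ≤ t
        · have h1 := ((DD_cont hp l).continuousAt hU).eventually (lt_mem_nhds (hx2 hu))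
          filter_upwards [h1] with y hy _ using hy
        · have h1 := (hucont.continuousAt (x := x)).eventually (lt_mem_nhds (not_le.1 hu))
          filter_upwards [h1] with y hy h2
          exact absurd h2 (not_le.2 hy)
      filter_upwards [hU, hB1, hD1] with y h1 h2 h3 using ⟨h1, h2, h3⟩)
    (by
      rintro g hg x hx ⟨_, h1, h2⟩
      rw [BB_G hp hG hg hx] at h1
      rw [DD_G hp hG l hg hx, uu_G l hg] at h2
      exact ⟨hx, h1, h2⟩)
    (by
      rintro x ⟨hx, hxB⟩ hpx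
      rw [hTself x hx hpx] at hxB
      refine ⟨hx.1, BB_ne hL hx.1 (hb.surj x hx.1 (hnR x hpx)), fun hu => ?_⟩
      exact ht1' x hx.1 hxB (hu.trans htt))
  -- the second application of `shrink`
  obtain ⟨e2, he2, hs2⟩ := shrink
    (S := {x | (x ∈ Fib U6 p (Metric.closedBall (R : ℂ) e) ∧ T x R ∈ closure B) ∧ T x R ∈ C6})
    (fun x hx => hx.1.1.1)
    (by
      intro x hx hxc
      have h1 := hSclosed x hx (closure_mono (fun y hy => hy.1) hxc)
      refine ⟨⟨h1.1, h1.2.1⟩, ?_⟩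
      have h2 := hT.mem x h1.1 R (Metric.mem_closedBall_self hT.e_pos.le)
      refine C_closed hp hb hR h2.1 h2.2 ?_
      have hTc : ContinuousWithinAt (fun y => T y R)
          {x | (x ∈ Fib U6 p (Metric.closedBall (R : ℂ) e) ∧ T x R ∈ closure B) ∧
            T x R ∈ C6} x := by
        have h2 : ContinuousOn (fun y => T y R) (Fib U6 p (Metric.closedBall (R : ℂ) e)) := by
          have h3 := hT.cont.comp (f := fun y : E6 => (y, (R : ℂ)))
            (s := Fib U6 p (Metric.closedBall (R : ℂ) e)) (by fun_prop)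
            (fun y hy => ⟨hy, Metric.mem_closedBall_self hT.e_pos.le⟩)
          exact h3
        exact (h2 x h1.1).mono fun y hy => hy.1.1
      have h4 := hTc.mem_closure_image hxc
      refine closure_mono ?_ h4
      rintro _ ⟨y, hy, rfl⟩
      exact hy.2)
    (by
      intro g hg x hx
      refine ⟨hSG g hg x hx.1, ?_⟩
      rw [hT.equiv x hx.1.1 R (Metric.mem_closedBall_self hT.e_pos.le) g hg]
      exact (C_G6 g hg _ hx.2.1).2 hx.2)
    (bdd_mono hSb fun x hx => hx.1) hp.continuousOn hG (z := (R : ℂ))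
    (O := {x | h6 x + l * x 5 ^ 2 < t / 2})
    (isOpen_lt hucont continuous_const)
    (by
      intro g hg x hx h
      have h1 : h6 (g x) + l * g x 5 ^ 2 < t / 2 := h
      rw [uu_G l hg] at h1
      exact h1)
    (by
      rintro x ⟨⟨hx, hxB⟩, hxC⟩ hpx
      rw [hTself x hx hpx] at hxB hxC
      have h1 := (hB.limit hL hb hR hx.1 hxB).2.2 hxC
      show h6 x + l * x 5 ^ 2 < t / 2
      rw [h1, hxC.2.2.1]
      simpa using half_pos htpos)
  refine ⟨t, min e (min e1 e2), htpos, htx, lt_min hT.e_pos (lt_min he1 he2), min_le_left _ _, ?_⟩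
  intro x hx hxB
  have hxe : x ∈ Fib U6 p (Metric.closedBall (R : ℂ) e) :=
    ⟨hx.1, Metric.closedBall_subset_closedBall (min_le_left _ _) hx.2⟩
  have hd : ‖p x - R‖ ≤ min e (min e1 e2) := by
    have := hx.2
    rwa [Metric.mem_closedBall, dist_eq_norm] at this
  have h1 := hs1 x ⟨hxe, hxB⟩ (hd.trans ((min_le_right _ _).trans (min_le_left _ _)))
  refine ⟨h1.2.1, h1.2.2, fun hC => ?_⟩
  exact hs2 x ⟨⟨hxe, hxB⟩, hC⟩ (hd.trans ((min_le_right _ _).trans (min_le_right _ _)))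

end Pool.Agent.LF
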