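import Pool.Agent.LF.Int
import Pool.Agent.LF.VolC
import Pool.Agent.LF.VolD

/-! # Task VolB: a bounded clopen subset of the fibre minus `C6` is empty -/

open Set Filter Topology
open scoped ContDiff

namespace Pool.Agent.LF

/-! ### sign, cut-off functions -/

private noncomputable def sg (r : ℝ) : ℝ := if 0 < r then 1 else -1

private lemma mul_sg (r : ℝ) : 0 ≤ r * sg r := by
  unfold sg
  split_ifs with h <;> linarith

private lemma mul_sg_pos {r : ℝ} (h : r ≠ 0) : 0 < r * sg r := by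
  unfold sg
  split_ifs with h1
  · linarith
  · rcases lt_or_gt_of_ne h with h2 | h2
    · linarith
    · exact absurd h2 h1

private lemma sg_nonneg {r s : ℝ} (h : 0 < r * s) : 0 ≤ sg r * s := by
  unfold sg
  split_ifs with h1
  · have := (mul_pos_iff_of_pos_left h1).1 h
    linarith
  · have h2 : s < 0 := by
      by_contra h3
      push Not at h1 h3
      nlinarith
    linarith

private lemma sg_eventually {f : E6 → ℝ} {x : E6} (hf : ContinuousAt f x) (h : f x ≠ 0) :
    ∀ᶠ y in 𝓝 x, sg (f y) = sg (f x) := by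
  rcases lt_or_gt_of_ne h with h2 | h2
  · filter_upwards [hf.eventually_lt_const h2] with y hy
    unfold sg
    rw [if_neg (not_lt.2 hy.le), if_neg (not_lt.2 h2.le)]
  · filter_upwards [hf.eventually_const_lt h2] with y hy
    unfold sg
    rw [if_pos hy, if_pos h2]

private noncomputable def bet (e s : ℝ) : ℝ := Real.smoothTransition (1 - 4 * s / e ^ 2)

private noncomputable def psi (t h : ℝ) : ℝ := Real.smoothTransition (2 * h / t - 1)

private lemma bet_smooth (e : ℝ) : ContDiff ℝ ∞ (bet e) := by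
  unfold bet
  exact Real.smoothTransition.contDiff.comp (by fun_prop)

private lemma psi_smooth (t : ℝ) : ContDiff ℝ ∞ (psi t) := by
  unfold psi
  exact Real.smoothTransition.contDiff.comp (by fun_prop)

private lemma psi_mono {t : ℝ} (ht : 0 < t) : Monotone (psi t) := by
  intro a b hab
  unfold psi
  apply Real.smoothTransition.monotone
  have : 2 * a / t ≤ 2 * b / t := by gcongr
  linarith

private lemma psi_zero {t h : ℝ} (ht : 0 < t) (hh : h ≤ t / 2) : psi t h = 0 := by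
  unfold psi
  apply Real.smoothTransition.zero_of_nonpos
  have : 2 * h / t ≤ 1 := by
    rw [div_le_one ht]; linarith
  linarith

private lemma psi_one {t h : ℝ} (ht : 0 < t) (hh : t ≤ h) : psi t h = 1 := by
  unfold psi
  apply Real.smoothTransition.one_of_one_le
  have : 2 ≤ 2 * h / t := by
    rw [le_div_iff₀ ht]; linarith
  linarith

private lemma bet_zero {e s : ℝ} (he : 0 < e) (hs : (e / 2) ^ 2 ≤ s) : bet e s = 0 := by
  unfold bet
  apply Real.smoothTransition.zero_of_nonpos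
  have : 1 ≤ 4 * s / e ^ 2 := by
    rw [le_div_iff₀ (by positivity)]; nlinarith
  linarith

private lemma bet_one (e : ℝ) : bet e 0 = 1 := by
  unfold bet
  simp [Real.smoothTransition.one]

/-! ### the complement of `C6` -/

private lemma not_C_nhds {p : E6 → ℂ} {R₀ : ℝ} (hb : Big p R₀) {z : E6} (hz : z ∈ U6)
    (hR : R₀ ≤ ‖p z‖) (hC : z ∉ C6) : ∀ᶠ y in 𝓝 z, y ∉ C6 := by
  have hc : ∀ i : Fin 6, Continuous fun y : E6 => y i := fun i => continuous_apply i
  have hh : Continuous h6 := by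
    unfold h6 m6
    fun_prop
  have hr := hb.skel z hz hR
  by_cases h5 : z 5 = 0
  · by_cases hh6 : h6 z ≤ 0
    · by_cases h4 : z 4 = 0
      · exfalso
        have h1 : h6 z = m6 z ^ 2 := by simp [h6, h4]
        have h2 : rho6 z = m6 z ^ 2 := by simp [rho6, h4, h5]
        linarith
      · exact absurd ⟨hz, h4, h5, hh6⟩ hC
    · push Not at hh6
      filter_upwards [hh.continuousAt.eventually_const_lt hh6] with y hy hyC
      exact absurd hyC.2.2.2 (not_le.2 hy)
  · filter_upwards [(hc 5).continuousAt.eventually_ne h5] with y hy hyC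
    exact hy hyC.2.2.1

/-! ### the cut-off function -/

open Classical in
private noncomputable def thB (p : E6 → ℂ) (T : E6 → ℂ → E6) (B : Set E6) (R e t l : ℝ)
    (x : E6) : ℝ :=
  if ‖p x - R‖ < e ∧ T x R ∈ B then
    sg (BB p x) * (bet e (‖p x - R‖ ^ 2) * psi t (h6 x + l * x 5 ^ 2)) else 0

private lemma h6_smooth : ContDiff ℝ ∞ h6 := by
  unfold h6 m6
  fun_prop

private lemma H_smooth (l : ℝ) : ContDiff ℝ ∞ (fun y : E6 => h6 y + l * y 5 ^ 2) := by
  have h1 := h6_smooth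
  fun_prop

/-- local form of the cut-off function -/
private lemma thB_local {p : E6 → ℂ} (hL : IsLefschetz X6 p) {R₀ R : ℝ} (hb : Big p R₀)
    (hR : R₀ < R) {e : ℝ} {T : E6 → ℂ → E6} (hT : Ret p R e T) {B : Set E6}
    (hB : VolSet p R B) {l t e' : ℝ} (ht : 0 < t) (he' : 0 < e') (hee : e' ≤ e)
    (hcut : ∀ x ∈ Fib U6 p (Metric.closedBall (R : ℂ) e'), T x R ∈ closure B →
        BB p x ≠ 0 ∧
        (h6 x + l * x 5 ^ 2 ≤ t →
          0 < BB p x * fderiv ℝ (fun y : E6 => h6 y + l * y 5 ^ 2) x (NN p x)) ∧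
        (T x R ∈ C6 → h6 x + l * x 5 ^ 2 < t / 2)) {x : E6} (hx : x ∈ U6) :
    thB p T B R e' t l =ᶠ[𝓝 x] (fun _ => 0) ∨
    (‖p x - R‖ < e' ∧ T x R ∈ B ∧ BB p x ≠ 0 ∧
      (h6 x + l * x 5 ^ 2 ≤ t →
          0 < BB p x * fderiv ℝ (fun y : E6 => h6 y + l * y 5 ^ 2) x (NN p x)) ∧
      thB p T B R e' t l =ᶠ[𝓝 x] (fun y => sg (BB p x) *
        (bet e' (‖p y - R‖ ^ 2) * psi t (h6 y + l * y 5 ^ 2)))) := by
  have hpc : ContinuousAt p x :=
    (hL.smooth.continuousOn).continuousAt (isOpen_U6.mem_nhds hx)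
  have hnc : ContinuousAt (fun y => ‖p y - R‖) x := (hpc.sub continuousAt_const).norm
  have hHc : Continuous (fun y : E6 => h6 y + l * y 5 ^ 2) := (H_smooth l).continuous
  by_cases hfar : e' ≤ ‖p x - R‖
  · left
    filter_upwards [hnc.eventually_const_lt (show e' / 2 < ‖p x - R‖ by linarith)] with y hy
    unfold thB
    split_ifs with h
    · rw [bet_zero he' (by gcongr)]
      ring
    · rfl
  push Not at hfar
  have hnear : ∀ᶠ y in 𝓝 x, y ∈ U6 ∧ ‖p y - R‖ < e' :=
    (isOpen_U6.eventually_mem hx).and (hnc.eventually_lt_const hfar)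
  have hFibn : ∀ y, y ∈ U6 ∧ ‖p y - R‖ < e' → y ∈ Fib U6 p (Metric.closedBall (R : ℂ) e) :=
    fun y hy => ⟨hy.1, by
      rw [Metric.mem_closedBall, dist_eq_norm]; exact hy.2.le.trans hee⟩
  have hFib : Fib U6 p (Metric.closedBall (R : ℂ) e) ∈ 𝓝 x := by
    filter_upwards [hnear] with y hy using hFibn y hy
  have hRm : (R : ℂ) ∈ Metric.closedBall (R : ℂ) e := Metric.mem_closedBall_self hT.e_pos.le
  have hTc : ContinuousAt (fun y => T y R) x := by
    have h1 : ContinuousOn (fun y : E6 => T y R) (Fib U6 p (Metric.closedBall (R : ℂ) e)) :=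
      hT.cont.comp (f := fun y : E6 => (y, (R : ℂ))) (by fun_prop) (fun y hy => ⟨hy, hRm⟩)
    exact h1.continuousAt hFib
  have hTx := hT.mem x (hFibn x ⟨hx, hfar⟩) R hRm
  by_cases hcl : T x R ∈ closure B
  swap
  · left
    have h1 : ∀ᶠ y in 𝓝 x, T y R ∉ closure B :=
      hTc.eventually (isClosed_closure.isOpen_compl.mem_nhds hcl)
    filter_upwards [h1] with y hy
    unfold thB
    rw [if_neg]
    rintro ⟨_, h2⟩
    exact hy (subset_closure h2)
  have hxF : x ∈ Fib U6 p (Metric.closedBall (R : ℂ) e') := ⟨hx, by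
    rw [Metric.mem_closedBall, dist_eq_norm]; exact hfar.le⟩
  obtain ⟨c1, c2, c3⟩ := hcut x hxF hcl
  by_cases hC : T x R ∈ C6
  · left
    filter_upwards [hHc.continuousAt.eventually_lt_const (c3 hC)] with y hy
    unfold thB
    split_ifs with h
    · rw [psi_zero ht hy.le]
      ring
    · rfl
  right
  have hTB : T x R ∈ B := by
    by_contra h
    exact hC ((hB.limit hL hb hR hTx.1 hcl).2.1 h)
  have hnormR : R₀ ≤ ‖p (T x R)‖ := by
    rw [hTx.2, Complex.norm_real, Real.norm_eq_abs]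
    exact hR.le.trans (le_abs_self R)
  obtain ⟨O, hO, hO2⟩ := hB.clopen (T x R) hTx.1 hTx.2 hC
  have h1 : ∀ᶠ y in 𝓝 x, T y R ∈ O := hTc.eventually hO
  have h2 : ∀ᶠ y in 𝓝 x, T y R ∉ C6 := hTc.eventually (not_C_nhds hb hTx.1 hnormR hC)
  have hBc : ContinuousAt (BB p) x :=
    ((BB_cont hL.smooth).continuousOn).continuousAt (isOpen_U6.mem_nhds hx)
  refine ⟨hfar, hTB, c1, c2, ?_⟩
  filter_upwards [h1, h2, hnear, sg_eventually hBc c1] with y y1 y2 y3 y4
  have y5 := hT.mem y (hFibn y y3) R hRm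
  have y6 : T y R ∈ B := (hO2 (T y R) y1 y5.1 y5.2 y2).2 hTB
  unfold thB
  rw [if_pos ⟨y3.2, y6⟩, y4]

/-- the cut-off function: it is smooth, invariant, with bounded support, and contradicts
`quot_zero` -/
theorem VolSet.exists_theta {p : E6 → ℂ} (hL : IsLefschetz X6 p) {R₀ R : ℝ} (hb : Big p R₀)
    (hR : R₀ < R) {e : ℝ} {T : E6 → ℂ → E6} (hT : Ret p R e T) {B : Set E6}
    (hB : VolSet p R B) {x₀ : E6} (hx₀ : x₀ ∈ B) :
    ∃ th : E6 → ℝ, ContDiffOn ℝ ∞ th U6 ∧ (∀ g ∈ G6, ∀ x ∈ U6, th (g x) = th x) ∧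
      Q6.Bdd {x | x ∈ U6 ∧ th x ≠ 0} ∧
      (∀ x ∈ U6, 0 ≤ 2 * BB p x * th x + fderiv ℝ th x (NN p x)) ∧
      0 < 2 * BB p x₀ * th x₀ + fderiv ℝ th x₀ (NN p x₀) := by
  obtain ⟨l, hl, hlB⟩ := hB.exists_l hL hb hR
  obtain ⟨t, e', ht, htx, he', hee, hcut⟩ := hB.exists_cut hL hb hR hT hl hlB hx₀
  have hRm : (R : ℂ) ∈ Metric.closedBall (R : ℂ) e := Metric.mem_closedBall_self hT.e_pos.le
  have hloc := fun x hx => thB_local hL hb hR hT hB ht he' hee hcut (x := x) hx
  have hpG : ∀ g ∈ G6, ∀ x ∈ U6, p (g x) = p x := fun g hg x hx => hL.inv g hg x hx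
  -- the value of the divergence
  have hval : ∀ x ∈ U6, T x R ∈ B → BB p x ≠ 0 →
      (h6 x + l * x 5 ^ 2 ≤ t →
          0 < BB p x * fderiv ℝ (fun y : E6 => h6 y + l * y 5 ^ 2) x (NN p x)) →
      thB p T B R e' t l =ᶠ[𝓝 x] (fun y => sg (BB p x) *
        (bet e' (‖p y - R‖ ^ 2) * psi t (h6 y + l * y 5 ^ 2))) →
      2 * (BB p x * sg (BB p x)) *
        (bet e' (‖p x - R‖ ^ 2) * psi t (h6 x + l * x 5 ^ 2)) ≤
      2 * BB p x * thB p T B R e' t l x + fderiv ℝ (thB p T B R e' t l) x (NN p x) := by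
    intro x hx hTB hBB hpos hloc
    have hpd : HasFDerivAt p (fderiv ℝ p x) x :=
      ((hL.smooth.contDiffAt (isOpen_U6.mem_nhds hx)).differentiableAt (by simp)).hasFDerivAt
    set F : ℂ → ℝ := fun z => bet e' (‖z - R‖ ^ 2) with hF
    have hFs : ContDiff ℝ ∞ F := by
      rw [hF]
      exact (bet_smooth e').comp ((contDiff_id.sub contDiff_const).norm_sq ℝ)
    have hFd : HasFDerivAt F (fderiv ℝ F (p x)) (p x) :=
      (hFs.differentiable (by simp) (p x)).hasFDerivAt
    have hHd : HasFDerivAt (fun y : E6 => h6 y + l * y 5 ^ 2)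
        (fderiv ℝ (fun y : E6 => h6 y + l * y 5 ^ 2) x) x :=
      ((H_smooth l).differentiable (by simp) x).hasFDerivAt
    have hpsd : HasDerivAt (psi t) (deriv (psi t) (h6 x + l * x 5 ^ 2))
        (h6 x + l * x 5 ^ 2) :=
      ((psi_smooth t).differentiable (by simp) _).hasDerivAt
    have k1 : HasFDerivAt (fun y => F (p y)) ((fderiv ℝ F (p x)).comp (fderiv ℝ p x)) x :=
      hFd.comp x hpd
    have k2 : HasFDerivAt (fun y : E6 => psi t (h6 y + l * y 5 ^ 2))
        (deriv (psi t) (h6 x + l * x 5 ^ 2) •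
          fderiv ℝ (fun y : E6 => h6 y + l * y 5 ^ 2) x) x := by
      exact HasDerivAt.comp_hasFDerivAt (h₂ := psi t)
        (f := fun y : E6 => h6 y + l * y 5 ^ 2) x hpsd hHd
    have k3 := ((k1.fun_mul k2).const_mul (sg (BB p x))).congr_of_eventuallyEq hloc
    rw [k3.fderiv]
    have hx1 : thB p T B R e' t l x = sg (BB p x) *
        (F (p x) * psi t (h6 x + l * x 5 ^ 2)) := hloc.eq_of_nhds
    rw [hx1]
    have hder : 0 ≤ deriv (psi t) (h6 x + l * x 5 ^ 2) := (psi_mono ht).deriv_nonneg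
    have hFn : 0 ≤ F (p x) := Real.smoothTransition.nonneg _
    have hkey : 0 ≤ deriv (psi t) (h6 x + l * x 5 ^ 2) *
        (sg (BB p x) * fderiv ℝ (fun y : E6 => h6 y + l * y 5 ^ 2) x (NN p x)) := by
      by_cases hle : h6 x + l * x 5 ^ 2 ≤ t
      · exact mul_nonneg hder (sg_nonneg (hpos hle))
      · push Not at hle
        have : psi t =ᶠ[𝓝 (h6 x + l * x 5 ^ 2)] fun _ => 1 := by
          filter_upwards [lt_mem_nhds hle] with h hh
          exact psi_one ht hh.le
        rw [this.deriv_eq]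
        simp
    have hk2 := mul_nonneg hFn hkey
    simp only [add_apply, smul_apply, smul_eq_mul,
      ContinuousLinearMap.comp_apply, p_NN, map_zero, MulZeroClass.mul_zero, add_zero]
    have : bet e' (‖p x - R‖ ^ 2) = F (p x) := rfl
    rw [this]
    nlinarith [hk2]
  refine ⟨thB p T B R e' t l, ?_, ?_, ?_, ?_, ?_⟩
  · intro x hx
    apply ContDiffAt.contDiffWithinAt
    rcases hloc x hx with h | ⟨_, _, _, _, h⟩
    · exact contDiffAt_const.congr_of_eventuallyEq h
    · refine ContDiffAt.congr_of_eventuallyEq ?_ h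
      have h1 : ContDiffAt ℝ ∞ p x := hL.smooth.contDiffAt (isOpen_U6.mem_nhds hx)
      have h2 : ContDiffAt ℝ ∞ (fun y => ‖p y - (R : ℂ)‖ ^ 2) x :=
        (h1.sub contDiffAt_const).norm_sq ℝ
      exact contDiffAt_const.mul (((bet_smooth e').contDiffAt.comp x h2).mul
        ((psi_smooth t).contDiffAt.comp x (H_smooth l).contDiffAt))
  · intro g hg x hx
    have e1 : p (g x) = p x := hpG g hg x hx
    have e2 : BB p (g x) = BB p x := BB_G hL.smooth hpG hg hx
    have e3 : h6 (g x) = h6 x := h_G6 g hg x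
    have e4 : g x 5 = x 5 := by
      obtain ⟨k, a, b, rfl⟩ := hg
      simp [g6]
    have e5 : (‖p x - R‖ < e' ∧ T (g x) R ∈ B) ↔ (‖p x - R‖ < e' ∧ T x R ∈ B) := by
      refine and_congr_right fun h => ?_
      have hxF : x ∈ Fib U6 p (Metric.closedBall (R : ℂ) e) := ⟨hx, by
        rw [Metric.mem_closedBall, dist_eq_norm]; exact h.le.trans hee⟩
      rw [hT.equiv x hxF R hRm g hg]
      exact hB.inv g hg _ (hT.mem x hxF R hRm).1
    unfold thB
    rw [e1, e2, e3, e4]
    by_cases h : ‖p x - R‖ < e' ∧ T x R ∈ B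
    · rw [if_pos h, if_pos (e5.2 h)]
    · rw [if_neg h, if_neg (fun h' => h (e5.1 h'))]
  · refine bdd_mono (hT.bdd B hB.bdd) ?_
    rintro x ⟨hx, hne⟩
    unfold thB at hne
    split_ifs at hne with h
    · exact ⟨⟨hx, by rw [Metric.mem_closedBall, dist_eq_norm]; exact h.1.le.trans hee⟩, h.2⟩
    · exact absurd rfl hne
  · intro x hx
    rcases hloc x hx with h | ⟨h1, h2, h3, h4, h5⟩
    · rw [h.fderiv_eq, h.eq_of_nhds]
      simp
    · refine le_trans ?_ (hval x hx h2 h3 h4 h5)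
      have a1 := mul_sg (BB p x)
      have a2 : 0 ≤ bet e' (‖p x - R‖ ^ 2) := Real.smoothTransition.nonneg _
      have a3 : 0 ≤ psi t (h6 x + l * x 5 ^ 2) := Real.smoothTransition.nonneg _
      positivity
  · obtain ⟨hxU, hpx, hxC⟩ := hB.sub x₀ hx₀
    have hxF : x₀ ∈ Fib U6 p (Metric.closedBall (R : ℂ) e) := ⟨hxU, by
      rw [hpx]; exact hRm⟩
    have hTx : T x₀ R = x₀ := by
      have := hT.self x₀ hxF
      rwa [hpx] at this
    have hp0 : ‖p x₀ - R‖ = 0 := by rw [hpx]; simp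
    have hval1 : thB p T B R e' t l x₀ = sg (BB p x₀) := by
      unfold thB
      rw [if_pos ⟨by rw [hp0]; exact he', by rw [hTx]; exact hx₀⟩, hp0, psi_one ht htx.le]
      simp [bet_one]
    have hBne : BB p x₀ ≠ 0 := by
      have hxF' : x₀ ∈ Fib U6 p (Metric.closedBall (R : ℂ) e') := ⟨hxU, by
        rw [hpx]; exact Metric.mem_closedBall_self he'.le⟩
      exact (hcut x₀ hxF' (by rw [hTx]; exact subset_closure hx₀)).1
    have hp1 := mul_sg_pos hBne
    rcases hloc x₀ hxU with h | ⟨h1, h2, h3, h4, h5⟩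
    · exfalso
      have h6 := h.eq_of_nhds
      rw [hval1] at h6
      rw [h6] at hp1
      simp at hp1
    · refine lt_of_lt_of_le ?_ (hval x₀ hxU h2 h3 h4 h5)
      rw [hp0, psi_one ht htx.le]
      simp only [ne_eq, OfNat.ofNat_ne_zero, not_false_eq_true, zero_pow, bet_one]
      linarith

theorem vol {p : E6 → ℂ} (hL : IsLefschetz X6 p) {R₀ R : ℝ} (hb : Big p R₀) (hR : R₀ < R)
    {e : ℝ} {T : E6 → ℂ → E6} (hT : Ret p R e T) {B : Set E6} (hB : VolSet p R B) : B = ∅ := by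
  by_contra hne
  obtain ⟨x₀, hx₀⟩ := nonempty_iff_ne_empty.mpr hne
  obtain ⟨th, h1, h2, h3, h4, h5⟩ := hB.exists_theta hL hb hR hT hx₀
  have := quot_zero hL.smooth (fun g hg x hx => hL.inv g hg x hx) h1 h2 h3 h4 x₀
    (hB.sub x₀ hx₀).1
  linarith

end Pool.Agent.LF
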